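import Mathlib

/-!
# Accumulation points of zeros
-/

set_option autoImplicit false

open Set Filter Topology Asymptotics

namespace Q178.Jets

theorem countable_of_not_accPt {X : Type} [TopologicalSpace X] [SecondCountableTopology X]
    {T : Set X} (h : ∀ v ∈ T, ¬ AccPt v (𝓟 T)) : T.Countable := by
  have h1 : ∀ v ∈ T, ({v} : Set X) ∈ 𝓝[T] v := by
    intro v hv
    have h2 := h v hv
    rw [accPt_iff_nhds] at h2
    push Not at h2
    obtain ⟨U, hU, h3⟩ := h2
    rw [mem_nhdsWithin_iff_exists_mem_nhds_inter]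
    exact ⟨U, hU, fun y hy => h3 y hy⟩
  obtain ⟨t, htT, htc, hsub⟩ := TopologicalSpace.countable_cover_nhdsWithin h1
  refine htc.mono fun v hv => ?_
  obtain ⟨w, hw, hvw⟩ := mem_iUnion₂.1 (hsub hv)
  rw [mem_singleton_iff.1 hvw]
  exact hw

/-- A function of class `C^q` whose zeros accumulate at `s₀` is `o((s - s₀)^q)` there. -/
theorem isLittleO_of_accPt {u : ℝ → ℝ} {q : ℕ} {V : Set ℝ} {s₀ : ℝ} (hV : V ∈ 𝓝 s₀)
    (hu : ContDiffOn ℝ q u V) (hacc : AccPt s₀ (𝓟 {s | u s = 0})) :
    u =o[𝓝 s₀] fun s => (s - s₀) ^ q := by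
  obtain ⟨ε, hε, hball⟩ := Metric.mem_nhds_iff.1 hV
  set I := Metric.ball s₀ ε with hI
  have hIc : Convex ℝ I := convex_ball _ _
  have hs0 : s₀ ∈ I := Metric.mem_ball_self hε
  have hIn : 𝓝[I] s₀ = 𝓝 s₀ := nhdsWithin_eq_nhds.2 (Metric.ball_mem_nhds _ hε)
  have hT := taylor_isLittleO hIc hs0 (hu.mono hball)
  rw [hIn] at hT
  set c : ℕ → ℝ := fun k => ((k.factorial : ℝ)⁻¹) * iteratedDerivWithin k u I s₀ with hc
  have hev : ∀ s, taylorWithinEval u q I s₀ s = ∑ k ∈ Finset.range (q + 1), c k * (s - s₀) ^ k := by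
    intro s
    rw [taylor_within_apply]
    refine Finset.sum_congr rfl fun k _ => ?_
    simp only [hc, smul_eq_mul]
    ring
  simp only [hev] at hT
  set F : Filter ℝ := 𝓝[≠] s₀ ⊓ 𝓟 {s | u s = 0} with hF
  have hFne : F.NeBot := hacc
  have hF0 : ∀ᶠ s in F, u s = 0 := mem_inf_of_right (mem_principal_self _)
  have hFn : ∀ᶠ s in F, s ≠ s₀ := mem_inf_of_left self_mem_nhdsWithin
  have hFle : F ≤ 𝓝 s₀ := inf_le_left.trans nhdsWithin_le_nhds
  have hT' : (fun s => ∑ k ∈ Finset.range (q + 1), c k * (s - s₀) ^ k) =o[F]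
      fun s => (s - s₀) ^ q := by
    have h1 := (hT.mono hFle).neg_left
    refine h1.congr' ?_ EventuallyEq.rfl
    filter_upwards [hF0] with s hs
    rw [hs]
    ring
  have hall : ∀ k ≤ q, c k = 0 := by
    intro k
    induction k using Nat.strong_induction_on with
    | _ k ih =>
      intro hk
      have h1 : (fun s => ∑ j ∈ Finset.range (q + 1), c j * (s - s₀) ^ (j - k)) =o[F]
          fun s => (s - s₀) ^ (q - k) := by
        have h2 := hT'.mul_isBigO (isBigO_refl (fun s => ((s - s₀) ^ k)⁻¹) F)
        refine h2.congr' ?_ ?_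
        · filter_upwards [hFn] with s hs
          have hs' : s - s₀ ≠ 0 := sub_ne_zero.2 hs
          rw [Finset.sum_mul]
          refine Finset.sum_congr rfl fun j hj => ?_
          rcases lt_or_ge j k with h | h
          · rw [ih j h (by omega)]
            ring
          · have : (s - s₀) ^ j = (s - s₀) ^ (j - k) * (s - s₀) ^ k := by
              rw [← pow_add]
              congr 1
              omega
            rw [this]
            field_simp
        · filter_upwards [hFn] with s hs
          have hs' : s - s₀ ≠ 0 := sub_ne_zero.2 hs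
          have : (s - s₀) ^ q = (s - s₀) ^ (q - k) * (s - s₀) ^ k := by
            rw [← pow_add]
            congr 1
            omega
          rw [this]
          field_simp
      have h3 : Tendsto (fun s => ∑ j ∈ Finset.range (q + 1), c j * (s - s₀) ^ (j - k)) F
          (𝓝 0) := by
        have h4 : (fun s : ℝ => (s - s₀) ^ (q - k)) =O[F] fun _ => (1 : ℝ) := by
          have h5 : Tendsto (fun s : ℝ => (s - s₀) ^ (q - k)) F (𝓝 ((s₀ - s₀) ^ (q - k))) := by
            have : Continuous fun s : ℝ => (s - s₀) ^ (q - k) := by fun_prop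
            exact (this.tendsto s₀).mono_left hFle
          exact h5.isBigO_one ℝ
        exact (isLittleO_one_iff ℝ).1 (h1.trans_isBigO h4)
      have h6 : Tendsto (fun s => ∑ j ∈ Finset.range (q + 1), c j * (s - s₀) ^ (j - k)) F
          (𝓝 (∑ j ∈ Finset.range (q + 1), c j * (s₀ - s₀) ^ (j - k))) := by
        have : Continuous fun s : ℝ => ∑ j ∈ Finset.range (q + 1), c j * (s - s₀) ^ (j - k) := by
          fun_prop
        exact (this.tendsto s₀).mono_left hFle
      have h7 := tendsto_nhds_unique h6 h3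
      rw [Finset.sum_eq_single k] at h7
      · simpa using h7
      · intro j hj hjk
        rcases lt_or_gt_of_ne hjk with h | h
        · rw [ih j h (by omega)]
          ring
        · rw [sub_self, zero_pow (by omega), mul_zero]
      · intro h
        exact absurd (Finset.mem_range.2 (by omega)) h
  refine hT.congr_left fun s => ?_
  rw [Finset.sum_eq_zero, sub_zero]
  intro k hk
  rw [hall k (by have := Finset.mem_range.1 hk; omega), zero_mul]

end Q178.Jets
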