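import Pool.Agent.Q178.Jets.Defs

/-!
# The non-transversality set of a hypersurface `y = f(x, z)` of `J^1(ℝ, ℝ)`
-/

set_option autoImplicit false

open Set Filter Topology
open scoped ContDiff

namespace Q178.Jets

/-- The hypersurface `y = f(x, z)` of `J^1(ℝ, ℝ)`, where `z` is the coordinate `f'(x)`. -/
def hyp (f : ℝ × ℝ → ℝ) : Set (J 1) := {a | a.2 0 = f (a.1, a.2 1)}

theorem isClosed_hyp {f : ℝ × ℝ → ℝ} (hf : Continuous f) : IsClosed (hyp f) :=
  isClosed_eq (by fun_prop) (by fun_prop)

/-- the parametrisation of the hypersurface -/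
def par (f : ℝ × ℝ → ℝ) (v : Fin 2 → ℝ) : J 1 := (v 0, ![f (v 0, v 1), v 1])

theorem par_image (f : ℝ × ℝ → ℝ) : range (par f) = hyp f := by
  ext a
  constructor
  · rintro ⟨v, rfl⟩
    simp [hyp, par]
  · intro h
    refine ⟨![a.1, a.2 1], ?_⟩
    have h0 : a.2 0 = f (a.1, a.2 1) := h
    refine Prod.ext (by simp [par]) ?_
    funext i
    fin_cases i
    · simp [par, h0]
    · simp [par]

theorem contDiff_par {f : ℝ × ℝ → ℝ} {r : ℕ} (hf : ContDiff ℝ r f) : ContDiff ℝ r (par f) := by
  refine ContDiff.prodMk (by fun_prop) ?_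
  rw [contDiff_pi]
  intro i
  fin_cases i
  · exact hf.comp (by fun_prop : ContDiff ℝ r fun v : Fin 2 → ℝ => (v 0, v 1))
  · simpa using (by fun_prop : ContDiff ℝ r fun v : Fin 2 → ℝ => v 1)

/-- a linear left inverse of `par` -/
def pro : J 1 →L[ℝ] (Fin 2 → ℝ) :=
  ContinuousLinearMap.pi
    ![ContinuousLinearMap.fst ℝ ℝ (Fin 2 → ℝ),
      (ContinuousLinearMap.proj 1).comp (ContinuousLinearMap.snd ℝ ℝ (Fin 2 → ℝ))]

theorem pro_par (f : ℝ × ℝ → ℝ) (v : Fin 2 → ℝ) : pro (par f v) = v := by
  funext i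
  fin_cases i <;> simp [pro, par]

theorem isSubmanifold_hyp {f : ℝ × ℝ → ℝ} {r : ℕ} (hr : 1 ≤ r) (hf : ContDiff ℝ r f) :
    IsSubmanifold r 1 (hyp f) := by
  intro a ha
  refine ⟨2, univ, univ, par f, by simp, isOpen_univ, mem_univ _, isOpen_univ,
    by rw [image_univ, inter_univ, par_image], ?_, (contDiff_par hf).contDiffOn, ?_⟩
  · have h1 : IsEmbedding (par f) :=
      (Function.LeftInverse.isEmbedding (f := fun a => pro a) (fun v => pro_par f v)
        pro.continuous (contDiff_par hf).continuous)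
    exact h1.comp IsEmbedding.subtypeVal
  · intro _ v _
    have hd : DifferentiableAt ℝ (par f) v :=
      (contDiff_par hf).contDiffAt.differentiableAt (by exact_mod_cast (by omega : r ≠ 0))
    have h2 : HasFDerivAt (fun v => pro (par f v)) (pro.comp (fderiv ℝ (par f) v)) v :=
      pro.hasFDerivAt.comp v hd.hasFDerivAt
    have h3 : HasFDerivAt (fun v => pro (par f v)) (ContinuousLinearMap.id ℝ (Fin 2 → ℝ)) v := by
      have : (fun v => pro (par f v)) = id := by
        funext v
        exact pro_par f v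
      rw [this]
      exact hasFDerivAt_id v
    have h4 := h2.unique h3
    intro u w huw
    have h5 : (pro.comp (fderiv ℝ (par f) v)) u = (pro.comp (fderiv ℝ (par f) v)) w := by
      simp [huw]
    rw [h4] at h5
    simpa using h5

/-- the derivative of the equation `y - f(x, z)` of the hypersurface -/
noncomputable def dF (f : ℝ × ℝ → ℝ) (a : J 1) : J 1 →L[ℝ] ℝ :=
  (ContinuousLinearMap.proj 0).comp (ContinuousLinearMap.snd ℝ ℝ (Fin 2 → ℝ)) -
    (fderiv ℝ f (a.1, a.2 1)).comp
      ((ContinuousLinearMap.fst ℝ ℝ (Fin 2 → ℝ)).prod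
        ((ContinuousLinearMap.proj 1).comp (ContinuousLinearMap.snd ℝ ℝ (Fin 2 → ℝ))))

theorem dF_apply (f : ℝ × ℝ → ℝ) (a v : J 1) :
    dF f a v = v.2 0 - fderiv ℝ f (a.1, a.2 1) (v.1, v.2 1) := by
  simp [dF]

theorem tangentSpace_hyp {f : ℝ × ℝ → ℝ} (hf : Differentiable ℝ f) {a : J 1} (ha : a ∈ hyp f) :
    tangentSpace (hyp f) a = LinearMap.ker (dF f a).toLinearMap := by
  apply le_antisymm
  · refine Submodule.span_le.2 ?_
    rintro v ⟨γ, h0, hA, hγ⟩
    have h1 : HasDerivAt (fun t => (γ t).1) v.1 0 := by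
      exact (ContinuousLinearMap.fst ℝ ℝ (Fin 2 → ℝ)).hasFDerivAt.comp_hasDerivAt 0 hγ
    have h2 : ∀ i, HasDerivAt (fun t => (γ t).2 i) (v.2 i) 0 := by
      intro i
      exact ((ContinuousLinearMap.proj i).comp
        (ContinuousLinearMap.snd ℝ ℝ (Fin 2 → ℝ)) : J 1 →L[ℝ] ℝ).hasFDerivAt.comp_hasDerivAt 0 hγ
    have h3 : HasDerivAt (fun t => f ((γ t).1, (γ t).2 1))
        (fderiv ℝ f (a.1, a.2 1) (v.1, v.2 1)) 0 := by
      have h4 : HasFDerivAt f (fderiv ℝ f (a.1, a.2 1)) ((γ 0).1, (γ 0).2 1) := by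
        rw [h0]
        exact (hf _).hasFDerivAt
      exact h4.comp_hasDerivAt 0 (h1.prodMk (h2 1))
    have h5 : (fun t => (γ t).2 0) =ᶠ[𝓝 0] fun t => f ((γ t).1, (γ t).2 1) := by
      filter_upwards [hA] with t ht
      exact ht
    have h6 := h3.congr_of_eventuallyEq h5
    have h7 := h6.unique (h2 0)
    rw [SetLike.mem_coe, LinearMap.mem_ker]
    simp only [ContinuousLinearMap.coe_coe, dF_apply, h7, sub_self]
  · intro v hv
    rw [LinearMap.mem_ker] at hv
    simp only [ContinuousLinearMap.coe_coe, dF_apply] at hv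
    refine Submodule.subset_span ⟨fun t => (a.1 + t * v.1,
      ![f (a.1 + t * v.1, a.2 1 + t * v.2 1), a.2 1 + t * v.2 1]), ?_, ?_, ?_⟩
    · refine Prod.ext (by simp) ?_
      funext i
      fin_cases i
      · simpa using ha.symm
      · simp
    · exact Eventually.of_forall fun t => by simp [hyp]
    · have h1 : HasDerivAt (fun t : ℝ => a.1 + t * v.1) v.1 0 := by
        simpa using ((hasDerivAt_id (0 : ℝ)).mul_const v.1).const_add a.1
      have h2 : HasDerivAt (fun t : ℝ => a.2 1 + t * v.2 1) (v.2 1) 0 := by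
        simpa using ((hasDerivAt_id (0 : ℝ)).mul_const (v.2 1)).const_add (a.2 1)
      refine h1.prodMk ?_
      rw [hasDerivAt_pi]
      intro i
      fin_cases i
      · have h4 : HasFDerivAt f (fderiv ℝ f (a.1, a.2 1)) (a.1 + 0 * v.1, a.2 1 + 0 * v.2 1) := by
          rw [zero_mul, zero_mul, add_zero, add_zero]
          exact (hf _).hasFDerivAt
        have h5 := h4.comp_hasDerivAt (0 : ℝ) (h1.prodMk h2)
        have h6 : v.2 0 = fderiv ℝ f (a.1, a.2 1) (v.1, v.2 1) := by linarith
        exact h5.congr_deriv h6.symm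
      · simpa using h2

theorem deriv_jet (f : ℝ → ℝ) (hf : ContDiff ℝ ∞ f) (p : ℕ) (x : ℝ) :
    HasDerivAt (jet p f) (1, fun i => iteratedDeriv (i + 1) f x) x := by
  refine (hasDerivAt_id x).prodMk ?_
  rw [hasDerivAt_pi]
  intro i
  have h1 : Differentiable ℝ (iteratedDeriv i f) :=
    hf.differentiable_iteratedDeriv i (by exact_mod_cast WithTop.coe_lt_top _)
  have h2 := (h1 x).hasDerivAt
  rwa [← iteratedDeriv_succ] at h2

/-- The non-transversality set of `y = f(x, z)` is given in `J^2(ℝ, ℝ)` by the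
equations `y = f` and `f_x + w f_z = z`. -/
theorem mem_tilde_hyp {f : ℝ × ℝ → ℝ} (hf : Differentiable ℝ f) (z : J 2) :
    z ∈ tilde (hyp f) ↔
      z.2 0 = f (z.1, z.2 1) ∧ fderiv ℝ f (z.1, z.2 1) (1, z.2 2) = z.2 1 := by
  constructor
  · rintro ⟨g, x, hg, rfl, hA, hT⟩
    have hA' : iteratedDeriv 0 g x = f (x, iteratedDeriv 1 g x) := hA
    refine ⟨hA', ?_⟩
    rw [tangentSpace_hyp hf hA, (deriv_jet g hg 1 x).deriv] at hT
    by_contra hne
    apply hT
    rw [eq_top_iff]
    intro v _
    set e : J 1 := (1, fun i => iteratedDeriv (i + 1) g x) with he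
    have hde : dF f (jet 1 g x) e ≠ 0 := by
      rw [dF_apply]
      intro h
      apply hne
      have : fderiv ℝ f (x, iteratedDeriv 1 g x) (1, iteratedDeriv 2 g x)
          = iteratedDeriv 1 g x := by
        have := h
        simp only [jet, he] at this
        simp only [Fin.val_zero, Fin.val_one, zero_add] at this
        linarith
      exact this
    set c := dF f (jet 1 g x) v / dF f (jet 1 g x) e with hc
    have : v = c • e + (v - c • e) := by abel
    rw [this]
    refine Submodule.add_mem_sup (Submodule.smul_mem _ _ (Submodule.mem_span_singleton_self e)) ?_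
    rw [LinearMap.mem_ker]
    simp only [ContinuousLinearMap.coe_coe, map_sub, map_smul, smul_eq_mul, hc]
    field_simp
    ring
  · rintro ⟨h1, h2⟩
    obtain ⟨x, y⟩ := z
    simp only at h1 h2
    set g : ℝ → ℝ := fun t => y 0 + y 1 * (t - x) + y 2 / 2 * (t - x) ^ 2 with hg
    have hgs : ContDiff ℝ ∞ g := by
      simp only [hg]
      fun_prop
    have hd1 : ∀ t, HasDerivAt g (y 1 + y 2 * (t - x)) t := by
      intro t
      have h3 : HasDerivAt (fun t : ℝ => t - x) 1 t := (hasDerivAt_id t).sub_const x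
      have h4 := (((h3.const_mul (y 1)).const_add (y 0))).add ((h3.pow 2).const_mul (y 2 / 2))
      refine h4.congr_deriv ?_
      simp
      ring
    have hg1 : deriv g = fun t => y 1 + y 2 * (t - x) := funext fun t => (hd1 t).deriv
    have hd2 : ∀ t, HasDerivAt (fun t => y 1 + y 2 * (t - x)) (y 2) t := by
      intro t
      have h3 : HasDerivAt (fun t : ℝ => t - x) 1 t := (hasDerivAt_id t).sub_const x
      simpa using (h3.const_mul (y 2)).const_add (y 1)
    have e0 : iteratedDeriv 0 g x = y 0 := by simp [hg]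
    have e1 : iteratedDeriv 1 g x = y 1 := by
      rw [iteratedDeriv_one, hg1]
      simp
    have e2 : iteratedDeriv 2 g x = y 2 := by
      rw [iteratedDeriv_succ, iteratedDeriv_one, hg1]
      exact (hd2 x).deriv
    have hA : jet 1 g x ∈ hyp f := by
      change iteratedDeriv 0 g x = f (x, iteratedDeriv 1 g x)
      rw [e0, e1]
      exact h1
    refine ⟨g, x, hgs, ?_, hA, ?_⟩
    · refine Prod.ext rfl ?_
      funext i
      fin_cases i
      · exact e0
      · exact e1
      · exact e2
    · rw [tangentSpace_hyp hf hA, (deriv_jet g hgs 1 x).deriv]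
      intro htop
      have hle : Submodule.span ℝ {((1, fun i : Fin 2 => iteratedDeriv (i + 1) g x) : J 1)} ⊔
          LinearMap.ker (dF f (jet 1 g x)).toLinearMap ≤
          LinearMap.ker (dF f (jet 1 g x)).toLinearMap := by
        refine sup_le ?_ le_rfl
        rw [Submodule.span_singleton_le_iff_mem, LinearMap.mem_ker]
        simp only [ContinuousLinearMap.coe_coe]
        rw [dF_apply]
        change iteratedDeriv (0 + 1) g x - fderiv ℝ f (x, iteratedDeriv 1 g x)
          (1, iteratedDeriv (1 + 1) g x) = 0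
        rw [zero_add, one_add_one_eq_two, e1, e2, h2, sub_self]
      rw [htop, top_le_iff] at hle
      have : ((0, ![1, 0]) : J 1) ∈ LinearMap.ker (dF f (jet 1 g x)).toLinearMap := by
        rw [hle]
        trivial
      rw [LinearMap.mem_ker] at this
      simp only [ContinuousLinearMap.coe_coe] at this
      rw [dF_apply] at this
      have h0 : ((0 : ℝ), ((![1, 0] : Fin 2 → ℝ) 1)) = 0 := by simp
      rw [h0, map_zero] at this
      simp at this

end Q178.Jets
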