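import Mathlib

/-!
# A function of class `C^r` which vanishes on a Cantor set and is not too flat anywhere
-/

set_option autoImplicit false

open Set Filter Topology
open scoped ContDiff

namespace Q178.Jets

/-- a smooth nonnegative function of period `1`, zero exactly where `sin (2 π t) ≥ 0` -/
noncomputable def eta (t : ℝ) : ℝ := expNegInvGlue (-Real.sin (2 * Real.pi * t))

theorem contDiff_eta {n : ℕ∞} : ContDiff ℝ n eta := by
  unfold eta
  exact expNegInvGlue.contDiff.comp (by fun_prop)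

theorem eta_nonneg (t : ℝ) : 0 ≤ eta t := expNegInvGlue.nonneg _

theorem eta_add_int (t : ℝ) (n : ℤ) : eta (t + n) = eta t := by
  unfold eta
  congr 2
  rw [mul_add, mul_comm (2 * Real.pi) (n : ℝ)]
  exact Real.sin_add_int_mul_two_pi _ _

theorem eta_int_add (n : ℤ) (t : ℝ) : eta (n + t) = eta t := by
  rw [add_comm, eta_add_int]

theorem eta_of_mem {t : ℝ} (h0 : 0 ≤ t) (h1 : t ≤ 1 / 2) : eta t = 0 := by
  unfold eta
  apply expNegInvGlue.zero_of_nonpos
  have : 0 ≤ Real.sin (2 * Real.pi * t) := by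
    apply Real.sin_nonneg_of_nonneg_of_le_pi
    · positivity
    · nlinarith [Real.pi_pos]
  linarith

theorem eta_int (n : ℤ) : eta n = 0 := by
  have := eta_add_int 0 n
  rw [zero_add] at this
  rw [this]
  exact eta_of_mem le_rfl (by norm_num)

theorem eta_pos : 0 < eta (3 / 4) := by
  unfold eta
  apply expNegInvGlue.pos_of_pos
  have : Real.sin (2 * Real.pi * (3 / 4)) = -1 := by
    have h : 2 * Real.pi * (3 / 4) = Real.pi / 2 + Real.pi := by ring
    rw [h, Real.sin_add_pi, Real.sin_pi_div_two]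
  rw [this]
  norm_num

/-- the basic doubly periodic function -/
noncomputable def psi (p : ℝ × ℝ) : ℝ := Real.sin p.1 * eta p.2

theorem contDiff_psi {n : ℕ∞} : ContDiff ℝ n psi := by
  unfold psi
  exact (Real.contDiff_sin.comp contDiff_fst).mul (contDiff_eta.comp contDiff_snd)

theorem psi_add (p : ℝ × ℝ) (m n : ℤ) : psi (p + (m * (2 * Real.pi), (n : ℝ))) = psi p := by
  simp only [psi, Prod.fst_add, Prod.snd_add, eta_add_int, Real.sin_add_int_mul_two_pi]

/-- all iterated derivatives of `psi` are bounded -/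
theorem exists_bound_psi (k : ℕ) : ∃ C : ℝ, 0 ≤ C ∧ ∀ p, ‖iteratedFDeriv ℝ k psi p‖ ≤ C := by
  have hcont : Continuous (iteratedFDeriv ℝ k psi) :=
    (contDiff_psi (n := k)).continuous_iteratedFDeriv (by exact_mod_cast le_rfl)
  have hK : IsCompact (Icc (0 : ℝ) (2 * Real.pi) ×ˢ Icc (0 : ℝ) 1) := isCompact_Icc.prod isCompact_Icc
  obtain ⟨C, hC⟩ := hK.exists_bound_of_continuousOn hcont.continuousOn
  refine ⟨max C 0, le_max_right _ _, fun p => ?_⟩
  set m : ℤ := ⌊p.1 / (2 * Real.pi)⌋ with hm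
  set n : ℤ := ⌊p.2⌋ with hn
  have hpi : 0 < 2 * Real.pi := by positivity
  set q : ℝ × ℝ := p - (m * (2 * Real.pi), (n : ℝ)) with hq
  have hqm : q ∈ Icc (0 : ℝ) (2 * Real.pi) ×ˢ Icc (0 : ℝ) 1 := by
    have h1 := Int.floor_le (p.1 / (2 * Real.pi))
    have h2 := (Int.lt_floor_add_one (p.1 / (2 * Real.pi))).le
    have h3 := Int.floor_le p.2
    have h4 := (Int.lt_floor_add_one p.2).le
    rw [← hm] at h1 h2
    rw [← hn] at h3 h4
    rw [le_div_iff₀ hpi] at h1
    rw [div_le_iff₀ hpi] at h2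
    simp only [hq, mem_prod, mem_Icc, Prod.fst_sub, Prod.snd_sub]
    refine ⟨⟨by linarith, by linarith⟩, by linarith, by linarith⟩
  have hp : p = q + (m * (2 * Real.pi), (n : ℝ)) := by simp [hq]
  have hper : (fun z => psi (z + (m * (2 * Real.pi), (n : ℝ)))) = psi := by
    funext z
    exact psi_add z m n
  have := iteratedFDeriv_comp_add_right (𝕜 := ℝ) (f := psi) k (m * (2 * Real.pi), (n : ℝ)) q
  rw [hper, ← hp] at this
  rw [← this]
  exact (hC q hqm).trans (le_max_left _ _)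

/-- the `n`-th term of the series -/
noncomputable def term (r n : ℕ) (p : ℝ × ℝ) : ℝ := (1 / 4 : ℝ) ^ (n * (r + 1)) * psi ((4 : ℝ) ^ n • p)

theorem contDiff_term (r n : ℕ) {m : ℕ∞} : ContDiff ℝ m (term r n) := by
  unfold term
  exact contDiff_const.mul (contDiff_psi.comp (contDiff_const_smul _))

theorem norm_iteratedFDeriv_term {k : ℕ} {C : ℝ} (hC : ∀ p, ‖iteratedFDeriv ℝ k psi p‖ ≤ C)
    (r n : ℕ) (p : ℝ × ℝ) :
    ‖iteratedFDeriv ℝ k (term r n) p‖ ≤ (1 / 4 : ℝ) ^ (n * (r + 1)) * (4 ^ n) ^ k * C := by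
  set g : ℝ × ℝ →L[ℝ] ℝ × ℝ := (4 : ℝ) ^ n • ContinuousLinearMap.id ℝ (ℝ × ℝ) with hg
  have hgn : ‖g‖ ≤ 4 ^ n := by
    rw [hg, norm_smul]
    calc ‖(4 : ℝ) ^ n‖ * ‖ContinuousLinearMap.id ℝ (ℝ × ℝ)‖
        ≤ ‖(4 : ℝ) ^ n‖ * 1 := by
          gcongr
          exact ContinuousLinearMap.norm_id_le
      _ = 4 ^ n := by simp
  have h1 : term r n = fun p => (1 / 4 : ℝ) ^ (n * (r + 1)) • (psi ∘ g) p := by
    funext p
    simp [term, hg]
  have hcd : ContDiff ℝ k (psi ∘ g) := contDiff_psi.comp g.contDiff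
  rw [h1, iteratedFDeriv_const_smul_apply' hcd.contDiffAt, norm_smul]
  rw [ContinuousLinearMap.iteratedFDeriv_comp_right g (contDiff_psi (n := k)) p le_rfl]
  have h2 : ‖(iteratedFDeriv ℝ k psi (g p)).compContinuousLinearMap fun _ => g‖ ≤ C * (4 ^ n) ^ k := by
    calc ‖(iteratedFDeriv ℝ k psi (g p)).compContinuousLinearMap fun _ => g‖
        ≤ ‖iteratedFDeriv ℝ k psi (g p)‖ * ∏ _i : Fin k, ‖g‖ :=
          ContinuousMultilinearMap.norm_compContinuousLinearMap_le _ _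
      _ ≤ C * ∏ _i : Fin k, (4 : ℝ) ^ n := by
          gcongr
          · exact (norm_nonneg _).trans (hC 0)
          · exact hC _
      _ = C * (4 ^ n) ^ k := by simp
  calc ‖(1 / 4 : ℝ) ^ (n * (r + 1))‖ *
        ‖(iteratedFDeriv ℝ k psi (g p)).compContinuousLinearMap fun _ => g‖
      ≤ (1 / 4 : ℝ) ^ (n * (r + 1)) * (C * (4 ^ n) ^ k) := by
        rw [Real.norm_of_nonneg (by positivity)]
        gcongr
    _ = (1 / 4 : ℝ) ^ (n * (r + 1)) * (4 ^ n) ^ k * C := by ring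

theorem coef_le {r k : ℕ} (hk : k ≤ r) (n : ℕ) :
    (1 / 4 : ℝ) ^ (n * (r + 1)) * (4 ^ n) ^ k ≤ (1 / 4) ^ n := by
  have h1 : n * (r + 1) = n * k + (n + n * (r - k)) := by
    have : r + 1 = k + (1 + (r - k)) := by omega
    rw [this]
    ring
  rw [h1, pow_add, ← pow_mul, mul_comm, ← mul_assoc, ← mul_pow]
  norm_num
  rw [pow_add]
  calc (1 / 4 : ℝ) ^ n * (1 / 4) ^ (n * (r - k)) ≤ (1 / 4 : ℝ) ^ n * 1 := by
        gcongr
        exact pow_le_one₀ (by norm_num) (by norm_num)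
    _ = (1 / 4 : ℝ) ^ n := mul_one _

theorem summable_quarter : Summable fun n : ℕ => (1 / 4 : ℝ) ^ n :=
  summable_geometric_of_lt_one (by norm_num) (by norm_num)

/-- the sum of the series -/
noncomputable def hh (r : ℕ) (p : ℝ × ℝ) : ℝ := ∑' n, term r n p

theorem contDiff_hh (r : ℕ) : ContDiff ℝ r (hh r) := by
  choose C hC0 hC using exists_bound_psi
  refine contDiff_tsum (N := r) (v := fun k n => (1 / 4 : ℝ) ^ n * C k)
    (fun i => contDiff_term r i) (fun k _ => summable_quarter.mul_right _) ?_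
  intro k n p hk
  have hk' : k ≤ r := by exact_mod_cast hk
  refine (norm_iteratedFDeriv_term (hC k) r n p).trans ?_
  exact mul_le_mul_of_nonneg_right (coef_le hk' n) (hC0 k)

theorem fderiv_psi (p : ℝ × ℝ) (u v : ℝ) :
    fderiv ℝ psi p (u, v) = u * (Real.cos p.1 * eta p.2) + v * (Real.sin p.1 * deriv eta p.2) := by
  have h1 : HasFDerivAt (fun p : ℝ × ℝ => Real.sin p.1)
      (Real.cos p.1 • ContinuousLinearMap.fst ℝ ℝ ℝ) p :=
    (Real.hasDerivAt_sin p.1).comp_hasFDerivAt p hasFDerivAt_fst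
  have h2 : HasFDerivAt (fun p : ℝ × ℝ => eta p.2)
      (deriv eta p.2 • ContinuousLinearMap.snd ℝ ℝ ℝ) p := by
    have : DifferentiableAt ℝ eta p.2 :=
      (contDiff_eta (n := 1)).contDiffAt.differentiableAt (by norm_num)
    exact this.hasDerivAt.comp_hasFDerivAt p hasFDerivAt_snd
  have h3 : HasFDerivAt psi _ p := h1.mul h2
  rw [h3.fderiv]
  simp
  ring

/-- the coefficient of the derivative in the direction `x` -/
noncomputable def KK (r : ℕ) (p : ℝ × ℝ) : ℝ :=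
  ∑' n : ℕ, (1 / 4 : ℝ) ^ (n * r) * (Real.cos (4 ^ n * p.1) * eta (4 ^ n * p.2))

/-- the coefficient of the derivative in the direction `z` -/
noncomputable def LL (r : ℕ) (p : ℝ × ℝ) : ℝ :=
  ∑' n : ℕ, (1 / 4 : ℝ) ^ (n * r) * (Real.sin (4 ^ n * p.1) * deriv eta (4 ^ n * p.2))

theorem fderiv_term (r n : ℕ) (p : ℝ × ℝ) (u v : ℝ) :
    fderiv ℝ (term r n) p (u, v) =
      u * ((1 / 4 : ℝ) ^ (n * r) * (Real.cos (4 ^ n * p.1) * eta (4 ^ n * p.2))) +
      v * ((1 / 4 : ℝ) ^ (n * r) * (Real.sin (4 ^ n * p.1) * deriv eta (4 ^ n * p.2))) := by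
  have h1 : HasFDerivAt (fun p : ℝ × ℝ => (4 : ℝ) ^ n • p)
      ((4 : ℝ) ^ n • ContinuousLinearMap.id ℝ (ℝ × ℝ)) p :=
    ((4 : ℝ) ^ n • ContinuousLinearMap.id ℝ (ℝ × ℝ)).hasFDerivAt
  have h2 : HasFDerivAt psi (fderiv ℝ psi ((4 : ℝ) ^ n • p)) ((4 : ℝ) ^ n • p) :=
    ((contDiff_psi (n := 1)).contDiffAt.differentiableAt (by norm_num)).hasFDerivAt
  have h3 : HasFDerivAt (term r n) _ p := (h2.comp p h1).const_mul ((1 / 4 : ℝ) ^ (n * (r + 1)))
  rw [h3.fderiv]
  have h4 : (1 / 4 : ℝ) ^ (n * (r + 1)) * 4 ^ n = (1 / 4 : ℝ) ^ (n * r) := by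
    have : n * (r + 1) = n * r + n := by ring
    rw [this, pow_add, mul_assoc, ← mul_pow]
    norm_num
  simp only [smul_apply, ContinuousLinearMap.comp_apply,
    ContinuousLinearMap.id_apply, Prod.smul_mk, smul_eq_mul, fderiv_psi, Prod.smul_fst,
    Prod.smul_snd]
  rw [← h4]
  ring

theorem exists_bound_eta : ∃ C : ℝ, 0 ≤ C ∧ (∀ t, |eta t| ≤ C) ∧ ∀ t, |deriv eta t| ≤ C := by
  obtain ⟨C0, h0, hC0⟩ := exists_bound_psi 0
  obtain ⟨C1, h1, hC1⟩ := exists_bound_psi 1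
  refine ⟨max C0 C1, le_max_of_le_left h0, fun t => ?_, fun t => ?_⟩
  · have := hC0 (Real.pi / 2, t)
    rw [norm_iteratedFDeriv_zero] at this
    simp only [psi, Real.sin_pi_div_two, one_mul, Real.norm_eq_abs] at this
    exact this.trans (le_max_left _ _)
  · have h2 := hC1 (Real.pi / 2, t)
    rw [norm_iteratedFDeriv_one] at h2
    have h3 := fderiv_psi (Real.pi / 2, t) 0 1
    simp only [Real.sin_pi_div_two, one_mul, zero_mul, zero_add] at h3
    rw [← h3]
    have h4 := (fderiv ℝ psi (Real.pi / 2, t)).le_opNorm (0, 1)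
    have h5 : ‖((0 : ℝ), (1 : ℝ))‖ ≤ 1 := by simp [Prod.norm_def]
    have h6 : ‖fderiv ℝ psi (Real.pi / 2, t)‖ * ‖((0 : ℝ), (1 : ℝ))‖ ≤ C1 * 1 := by gcongr
    rw [Real.norm_eq_abs] at h4
    exact (h4.trans h6).trans (by rw [mul_one]; exact le_max_right _ _)

theorem coef_le' {r : ℕ} (hr : 1 ≤ r) (n : ℕ) : (1 / 4 : ℝ) ^ (n * r) ≤ (1 / 4) ^ n := by
  apply pow_le_pow_of_le_one (by norm_num) (by norm_num)
  nlinarith

theorem summable_KK {r : ℕ} (hr : 1 ≤ r) (p : ℝ × ℝ) : Summable fun n : ℕ =>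
    (1 / 4 : ℝ) ^ (n * r) * (Real.cos (4 ^ n * p.1) * eta (4 ^ n * p.2)) := by
  obtain ⟨C, hC, h1, -⟩ := exists_bound_eta
  refine Summable.of_norm_bounded (summable_quarter.mul_right C) fun n => ?_
  rw [norm_mul, norm_mul, Real.norm_of_nonneg (by positivity)]
  calc (1 / 4 : ℝ) ^ (n * r) * (‖Real.cos (4 ^ n * p.1)‖ * ‖eta (4 ^ n * p.2)‖)
      ≤ (1 / 4 : ℝ) ^ n * (1 * C) :=
        mul_le_mul (coef_le' hr n) (mul_le_mul (Real.abs_cos_le_one _) (h1 _) (norm_nonneg _)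
          zero_le_one) (by positivity) (by positivity)
    _ = (1 / 4 : ℝ) ^ n * C := by ring

theorem summable_LL {r : ℕ} (hr : 1 ≤ r) (p : ℝ × ℝ) : Summable fun n : ℕ =>
    (1 / 4 : ℝ) ^ (n * r) * (Real.sin (4 ^ n * p.1) * deriv eta (4 ^ n * p.2)) := by
  obtain ⟨C, hC, -, h1⟩ := exists_bound_eta
  refine Summable.of_norm_bounded (summable_quarter.mul_right C) fun n => ?_
  rw [norm_mul, norm_mul, Real.norm_of_nonneg (by positivity)]
  calc (1 / 4 : ℝ) ^ (n * r) * (‖Real.sin (4 ^ n * p.1)‖ * ‖deriv eta (4 ^ n * p.2)‖)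
      ≤ (1 / 4 : ℝ) ^ n * (1 * C) :=
        mul_le_mul (coef_le' hr n) (mul_le_mul (Real.abs_sin_le_one _) (h1 _) (norm_nonneg _)
          zero_le_one) (by positivity) (by positivity)
    _ = (1 / 4 : ℝ) ^ n * C := by ring

theorem fderiv_hh {r : ℕ} (hr : 1 ≤ r) (p : ℝ × ℝ) (u v : ℝ) :
    fderiv ℝ (hh r) p (u, v) = u * KK r p + v * LL r p := by
  obtain ⟨C, hC0, hC⟩ := exists_bound_psi 1
  have hbd : ∀ n x, ‖fderiv ℝ (term r n) x‖ ≤ (1 / 4 : ℝ) ^ n * C := by
    intro n x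
    have h1 := norm_iteratedFDeriv_term hC r n x
    rw [norm_iteratedFDeriv_one] at h1
    exact h1.trans (mul_le_mul_of_nonneg_right (coef_le hr n) hC0)
  have hd : ∀ n, Differentiable ℝ (term r n) := fun n =>
    (contDiff_term r n (m := 1)).differentiable (by norm_num)
  have h0 : Summable fun n => term r n 0 := by
    have : (fun n => term r n 0) = fun _ => (0 : ℝ) := by
      funext n
      simp [term, psi]
    rw [this]
    exact summable_zero
  have h1 : fderiv ℝ (hh r) = fun x => ∑' n, fderiv ℝ (term r n) x :=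
    fderiv_tsum (summable_quarter.mul_right C) hd hbd h0
  rw [h1]
  have hs : Summable fun n => fderiv ℝ (term r n) p :=
    Summable.of_norm_bounded (summable_quarter.mul_right C) fun n => hbd n p
  have h2 : (∑' n, fderiv ℝ (term r n) p) (u, v) = ∑' n, fderiv ℝ (term r n) p (u, v) :=
    ContinuousLinearMap.map_tsum (ContinuousLinearMap.apply ℝ ℝ (u, v)) hs
  simp only [h2, fderiv_term]
  rw [Summable.tsum_add ((summable_KK hr p).mul_left u) ((summable_LL hr p).mul_left v),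
    tsum_mul_left, tsum_mul_left]
  rfl

theorem exists_bound_LL {r : ℕ} (hr : 2 ≤ r) : ∃ C : ℝ, 0 ≤ C ∧ ∀ p, |LL r p| ≤ C * |p.1| := by
  obtain ⟨C, hC, -, h1⟩ := exists_bound_eta
  have hsum : Summable fun n : ℕ => (1 / 4 : ℝ) ^ n * C := summable_quarter.mul_right C
  refine ⟨∑' n : ℕ, (1 / 4 : ℝ) ^ n * C, tsum_nonneg fun n => by positivity, fun p => ?_⟩
  rw [← tsum_mul_right]
  rw [← Real.norm_eq_abs (LL r p)]
  refine tsum_of_norm_bounded (hsum.mul_right |p.1|).hasSum fun n => ?_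
  rw [norm_mul, norm_mul, Real.norm_of_nonneg (by positivity : (0 : ℝ) ≤ (1 / 4) ^ (n * r))]
  have h2 : ‖Real.sin (4 ^ n * p.1)‖ ≤ 4 ^ n * |p.1| := by
    rw [Real.norm_eq_abs]
    refine (Real.abs_sin_le_abs).trans ?_
    rw [abs_mul, abs_of_nonneg (by positivity : (0 : ℝ) ≤ 4 ^ n)]
  have h3 : (1 / 4 : ℝ) ^ (n * r) * 4 ^ n ≤ (1 / 4) ^ n := by
    have h4 : n * r = n + (n + n * (r - 2)) := by
      have : r = 1 + (1 + (r - 2)) := by omega
      conv_lhs => rw [this]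
      ring
    rw [h4, pow_add, mul_comm, ← mul_assoc, ← mul_pow]
    norm_num
    rw [pow_add]
    calc (1 / 4 : ℝ) ^ n * (1 / 4) ^ (n * (r - 2)) ≤ (1 / 4 : ℝ) ^ n * 1 := by
          gcongr
          exact pow_le_one₀ (by norm_num) (by norm_num)
      _ = (1 / 4 : ℝ) ^ n := mul_one _
  calc (1 / 4 : ℝ) ^ (n * r) * (‖Real.sin (4 ^ n * p.1)‖ * ‖deriv eta (4 ^ n * p.2)‖)
      ≤ (1 / 4 : ℝ) ^ (n * r) * ((4 ^ n * |p.1|) * C) := by
        gcongr
        exact h1 _
    _ = ((1 / 4 : ℝ) ^ (n * r) * 4 ^ n) * (C * |p.1|) := by ring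
    _ ≤ (1 / 4) ^ n * (C * |p.1|) := by gcongr
    _ = (1 / 4 : ℝ) ^ n * C * |p.1| := by ring

/-- the points at which the function is large -/
noncomputable def near (z : ℝ) (n : ℕ) : ℝ := (⌊4 ^ n * z⌋ + 3 / 4) / 4 ^ n

theorem abs_near_sub (z : ℝ) (n : ℕ) : |near z n - z| ≤ (1 / 4) ^ n := by
  have h4 : (0 : ℝ) < 4 ^ n := by positivity
  have h1 := Int.floor_le (4 ^ n * z)
  have h2 := (Int.lt_floor_add_one (4 ^ n * z)).le
  have h3 : near z n - z = (⌊4 ^ n * z⌋ + 3 / 4 - 4 ^ n * z) / 4 ^ n := by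
    unfold near
    field_simp
  rw [h3, abs_div, abs_of_pos h4, div_le_iff₀ h4, ← mul_pow]
  norm_num
  rw [abs_le]
  constructor <;> linarith

theorem tendsto_near (z : ℝ) : Tendsto (near z) atTop (𝓝 z) := by
  have h1 : Tendsto (fun n : ℕ => (1 / 4 : ℝ) ^ n) atTop (𝓝 0) :=
    tendsto_pow_atTop_nhds_zero_of_lt_one (by norm_num) (by norm_num)
  rw [tendsto_iff_norm_sub_tendsto_zero]
  exact squeeze_zero (fun n => norm_nonneg _) (fun n => abs_near_sub z n) h1

theorem KK_near {r : ℕ} (hr : 1 ≤ r) (z x : ℝ) (n : ℕ) (hx : |x| ≤ (1 / 4) ^ n) :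
    (1 / 4 : ℝ) ^ (n * r) * (Real.cos 1 * eta (3 / 4)) ≤ KK r (x, near z n) := by
  have h4 : (0 : ℝ) < 4 ^ n := by positivity
  have hcos : ∀ m ≤ n, Real.cos 1 ≤ Real.cos (4 ^ m * x) := by
    intro m hm
    rw [← Real.cos_abs (4 ^ m * x)]
    have h5 : |4 ^ m * x| ≤ 1 := by
      rw [abs_mul, abs_of_pos (by positivity : (0 : ℝ) < 4 ^ m)]
      calc (4 : ℝ) ^ m * |x| ≤ 4 ^ n * (1 / 4) ^ n := by
            gcongr
            norm_num
        _ = 1 := by rw [← mul_pow]; norm_num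
    exact Real.cos_le_cos_of_nonneg_of_le_pi (abs_nonneg _) (by linarith [Real.pi_gt_three]) h5
  have hterm : eta (4 ^ n * near z n) = eta (3 / 4) := by
    have : 4 ^ n * near z n = (⌊4 ^ n * z⌋ : ℝ) + 3 / 4 := by
      unfold near
      field_simp
    rw [this, eta_int_add]
  have hrest : ∀ m, n < m → eta (4 ^ m * near z n) = 0 := by
    intro m hm
    obtain ⟨j, rfl⟩ : ∃ j, m = n + 1 + j := ⟨m - (n + 1), by omega⟩
    have : (4 : ℝ) ^ (n + 1 + j) * near z n = ((4 ^ j * (4 * ⌊4 ^ n * z⌋ + 3) : ℤ) : ℝ) := by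
      unfold near
      push_cast
      field_simp
      ring
    rw [this, eta_int]
  have hc1 : 0 < Real.cos 1 := Real.cos_one_pos
  calc (1 / 4 : ℝ) ^ (n * r) * (Real.cos 1 * eta (3 / 4))
      ≤ (1 / 4 : ℝ) ^ (n * r) * (Real.cos (4 ^ n * x) * eta (4 ^ n * near z n)) := by
        rw [hterm]
        gcongr
        · exact eta_nonneg _
        · exact hcos n le_rfl
    _ ≤ KK r (x, near z n) := by
        refine (summable_KK hr (x, near z n)).le_tsum n fun m hm => ?_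
        rcases lt_or_ge n m with h | h
        · simp only [hrest m h, mul_zero, le_refl]
        · have := hcos m h
          have h7 : 0 ≤ Real.cos (4 ^ m * x) := hc1.le.trans this
          have h8 := eta_nonneg (4 ^ m * near z n)
          simp only
          positivity

/-- the points of the Cantor set -/
noncomputable def zc (b : ℕ → Bool) : ℝ := 1 / 4 * Cardinal.cantorFunction (1 / 4) b

theorem zc_injective : Function.Injective zc := by
  intro b c h
  have h1 := Cardinal.cantorFunction_injective (c := 1 / 4) (by norm_num) (by norm_num)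
  apply h1
  unfold zc at h
  linarith

theorem zc_mem (b : ℕ → Bool) : 0 ≤ zc b ∧ zc b ≤ 1 / 2 := by
  have h1 : Cardinal.cantorFunction (1 / 4) (fun _ => false) ≤ Cardinal.cantorFunction (1 / 4) b :=
    Cardinal.cantorFunction_le (by norm_num) (by norm_num) (by simp)
  have h2 : Cardinal.cantorFunction (1 / 4) b ≤ Cardinal.cantorFunction (1 / 4) (fun _ => true) :=
    Cardinal.cantorFunction_le (by norm_num) (by norm_num) (by simp)
  have h3 : Cardinal.cantorFunction (1 / 4) (fun _ => false) = 0 := by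
    simp [Cardinal.cantorFunction, Cardinal.cantorFunctionAux]
  have h4 : Cardinal.cantorFunction (1 / 4) (fun _ => true) = 4 / 3 := by
    simp only [Cardinal.cantorFunction, Cardinal.cantorFunctionAux, cond_true]
    rw [tsum_geometric_of_lt_one (by norm_num) (by norm_num)]
    norm_num
  rw [h3] at h1
  rw [h4] at h2
  unfold zc
  constructor <;> linarith

theorem zc_shift (b : ℕ → Bool) : ∃ k : ℤ, 4 * zc b = k + zc fun n => b (n + 1) := by
  refine ⟨cond (b 0) 1 0, ?_⟩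
  unfold zc
  rw [Cardinal.cantorFunction_succ b (by norm_num) (by norm_num)]
  cases b 0 <;> simp

theorem zc_pow (n : ℕ) : ∀ b : ℕ → Bool, ∃ (k : ℤ) (c : ℕ → Bool), 4 ^ n * zc b = k + zc c := by
  induction n with
  | zero => exact fun b => ⟨0, b, by simp⟩
  | succ n ih =>
    intro b
    obtain ⟨k, c, h⟩ := ih b
    obtain ⟨l, hl⟩ := zc_shift c
    refine ⟨4 * k + l, fun n => c (n + 1), ?_⟩
    calc (4 : ℝ) ^ (n + 1) * zc b = 4 * (4 ^ n * zc b) := by ring
      _ = 4 * k + 4 * zc c := by rw [h]; ring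
      _ = _ := by rw [hl]; push_cast; ring

theorem eta_zc (b : ℕ → Bool) (n : ℕ) : eta (4 ^ n * zc b) = 0 := by
  obtain ⟨k, c, h⟩ := zc_pow n b
  rw [h, eta_int_add]
  exact eta_of_mem (zc_mem c).1 (zc_mem c).2

theorem KK_zc (r : ℕ) (x : ℝ) (b : ℕ → Bool) : KK r (x, zc b) = 0 := by
  simp [KK, eta_zc]

theorem LL_zero (r : ℕ) (z : ℝ) : LL r (0, z) = 0 := by
  simp [LL]

theorem hh_zero (r : ℕ) (z : ℝ) : hh r (0, z) = 0 := by
  simp [hh, term, psi]

theorem not_countable_range_zc : ¬ (range zc).Countable := by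
  intro h
  have h3 : Cardinal.mk (ℕ → Bool) = Cardinal.continuum := by simp
  have h1 : Countable (range zc) := h
  have h2 : Countable (ℕ → Bool) :=
    (Equiv.ofInjective zc zc_injective).countable_iff.2 h1
  have h4 : Cardinal.mk (ℕ → Bool) ≤ Cardinal.aleph0 := Cardinal.mk_le_aleph0_iff.2 h2
  rw [h3] at h4
  exact absurd h4 (not_le.2 Cardinal.aleph0_lt_continuum)

end Q178.Jets
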