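import Pool.Agent.Q178.Jets.Acc
import Pool.Agent.Q178.Jets.Wild
import Pool.Agent.Q178.Jets.Graph

/-!
# Charts in the non-transversality set
-/

set_option autoImplicit false

open Set Filter Topology Asymptotics
open scoped ContDiff

namespace Q178.Jets

/-- the function defining the hypersurface -/
noncomputable def ff (r : ℕ) (p : ℝ × ℝ) : ℝ := p.1 * p.2 - hh r p

theorem contDiff_ff (r : ℕ) : ContDiff ℝ r (ff r) :=
  (contDiff_fst.mul contDiff_snd).sub (contDiff_hh r)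

theorem fderiv_ff {r : ℕ} (hr : 1 ≤ r) (p : ℝ × ℝ) (u v : ℝ) :
    fderiv ℝ (ff r) p (u, v) = u * (p.2 - KK r p) + v * (p.1 - LL r p) := by
  have hne : (r : WithTop ℕ∞) ≠ 0 := by exact_mod_cast (by omega : r ≠ 0)
  have h1 : HasFDerivAt (fun p : ℝ × ℝ => p.1 * p.2)
      (p.1 • ContinuousLinearMap.snd ℝ ℝ ℝ + p.2 • ContinuousLinearMap.fst ℝ ℝ ℝ) p :=
    hasFDerivAt_fst.mul hasFDerivAt_snd
  have h2 : HasFDerivAt (hh r) (fderiv ℝ (hh r) p) p :=
    ((contDiff_hh r).contDiffAt.differentiableAt hne).hasFDerivAt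
  have h3 : HasFDerivAt (ff r) _ p := h1.sub h2
  rw [h3.fderiv]
  simp only [sub_apply, add_apply, smul_apply, ContinuousLinearMap.coe_snd',
    ContinuousLinearMap.coe_fst', smul_eq_mul, fderiv_hh hr]
  ring

theorem mem_tilde_ff {r : ℕ} (hr : 1 ≤ r) (z : J 2) :
    z ∈ tilde (hyp (ff r)) ↔ z.2 0 = ff r (z.1, z.2 1) ∧
      KK r (z.1, z.2 1) = z.2 2 * (z.1 - LL r (z.1, z.2 1)) := by
  have hne : (r : WithTop ℕ∞) ≠ 0 := by exact_mod_cast (by omega : r ≠ 0)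
  rw [mem_tilde_hyp ((contDiff_ff r).differentiable hne), fderiv_ff hr]
  simp only
  constructor <;> rintro ⟨h1, h2⟩ <;> exact ⟨h1, by linarith⟩

/-- the bad points of the non-transversality set -/
def BB : Set (J 2) := {z | z.1 = 0 ∧ z.2 0 = 0 ∧ z.2 1 ∈ range zc ∧ z.2 2 = 0}

theorem BB_subset {r : ℕ} (hr : 1 ≤ r) : BB ⊆ tilde (hyp (ff r)) := by
  rintro ⟨x, y⟩ ⟨h1, h2, ⟨b, h3⟩, h4⟩
  simp only at h1 h2 h3 h4
  rw [mem_tilde_ff hr]
  simp only
  rw [h1, h2, h4, ← h3, KK_zc]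
  refine ⟨?_, by ring⟩
  simp [ff, hh_zero]

theorem not_countable_BB : ¬ BB.Countable := by
  intro h
  have h1 : (fun z : J 2 => z.2 1) '' BB = range zc := by
    ext t
    constructor
    · rintro ⟨z, hz, rfl⟩
      exact hz.2.2.1
    · intro ht
      exact ⟨(0, ![0, t, 0]), ⟨rfl, rfl, ht, rfl⟩, rfl⟩
  apply not_countable_range_zc
  rw [← h1]
  exact h.image _

theorem fderiv_eq_zero_of_mem_tangentCone {E : Type} [NormedAddCommGroup E] [NormedSpace ℝ E]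
    {u : E → ℝ} {T : Set E} {v₀ e : E} (hu : DifferentiableAt ℝ u v₀) (h0 : ∀ v ∈ T, u v = 0)
    (hv₀ : v₀ ∈ T) (he : e ∈ tangentConeAt ℝ T v₀) : fderiv ℝ u v₀ e = 0 := by
  have h1 : HasFDerivWithinAt u (fderiv ℝ u v₀) T v₀ := hu.hasFDerivAt.hasFDerivWithinAt
  have h2 : HasFDerivWithinAt u (0 : E →L[ℝ] ℝ) T v₀ :=
    (hasFDerivWithinAt_const (0 : ℝ) v₀ T).congr (fun v hv => h0 v hv) (h0 v₀ hv₀)
  exact h1.unique_on h2 he

/-- The contradiction at the points `near z₀ n`. -/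
theorem no_path {r q : ℕ} (hr : 2 ≤ r) (hrq : r ≤ 2 * q) (hq : 1 ≤ q) {z₀ : ℝ} {X W : ℝ → ℝ}
    (hX : (fun n => X (near z₀ n)) =o[atTop] fun n : ℕ => ((1 / 4 : ℝ) ^ n) ^ q)
    (hW : (fun n => W (near z₀ n)) =o[atTop] fun n : ℕ => ((1 / 4 : ℝ) ^ n) ^ q)
    (h : ∀ᶠ z in 𝓝 z₀, KK r (X z, z) = W z * (X z - LL r (X z, z))) : False := by
  obtain ⟨C, hC0, hC⟩ := exists_bound_LL hr
  have hn := (tendsto_near z₀).eventually h
  have h1 : (fun n : ℕ => KK r (X (near z₀ n), near z₀ n)) =O[atTop]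
      fun n => W (near z₀ n) * X (near z₀ n) := by
    refine IsBigO.of_bound (1 + C) ?_
    filter_upwards [hn] with n hn
    rw [hn, norm_mul, norm_mul]
    have h2 : ‖X (near z₀ n) - LL r (X (near z₀ n), near z₀ n)‖ ≤ (1 + C) * ‖X (near z₀ n)‖ := by
      refine (norm_sub_le _ _).trans ?_
      have := hC (X (near z₀ n), near z₀ n)
      simp only [Real.norm_eq_abs]
      simp only at this
      linarith
    calc ‖W (near z₀ n)‖ * ‖X (near z₀ n) - LL r (X (near z₀ n), near z₀ n)‖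
        ≤ ‖W (near z₀ n)‖ * ((1 + C) * ‖X (near z₀ n)‖) := by gcongr
      _ = (1 + C) * (‖W (near z₀ n)‖ * ‖X (near z₀ n)‖) := by ring
  have h2 := h1.trans_isLittleO (hW.mul hX)
  have hsmall : ∀ᶠ n : ℕ in atTop, |X (near z₀ n)| ≤ (1 / 4) ^ n := by
    have h3 := (isLittleO_iff.1 hX) (zero_lt_one)
    filter_upwards [h3] with n hn
    rw [one_mul, Real.norm_eq_abs, Real.norm_of_nonneg (by positivity)] at hn
    refine hn.trans ?_
    have h5 : (1 / 4 : ℝ) ^ n ≤ 1 := pow_le_one₀ (by norm_num) (by norm_num)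
    calc ((1 / 4 : ℝ) ^ n) ^ q ≤ ((1 / 4 : ℝ) ^ n) ^ 1 :=
          pow_le_pow_of_le_one (by positivity) h5 hq
      _ = (1 / 4 : ℝ) ^ n := pow_one _
  set c := Real.cos 1 * eta (3 / 4) with hc
  have hcpos : 0 < c := mul_pos Real.cos_one_pos eta_pos
  have h3 : (fun n : ℕ => (1 / 4 : ℝ) ^ (n * r)) =O[atTop]
      fun n => KK r (X (near z₀ n), near z₀ n) := by
    refine IsBigO.of_bound c⁻¹ ?_
    filter_upwards [hsmall] with n hn
    have h4 := KK_near (by omega : 1 ≤ r) z₀ _ n hn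
    rw [← hc] at h4
    rw [Real.norm_of_nonneg (by positivity), Real.norm_eq_abs, ← div_eq_inv_mul, le_div_iff₀ hcpos]
    exact h4.trans (le_abs_self _)
  have h4 : (fun n : ℕ => ((1 / 4 : ℝ) ^ n) ^ q * ((1 / 4 : ℝ) ^ n) ^ q) =O[atTop]
      fun n => (1 / 4 : ℝ) ^ (n * r) := by
    refine IsBigO.of_bound 1 (Eventually.of_forall fun n => ?_)
    rw [one_mul, Real.norm_of_nonneg (by positivity), Real.norm_of_nonneg (by positivity)]
    rw [← pow_mul, ← pow_add]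
    apply pow_le_pow_of_le_one (by norm_num) (by norm_num)
    nlinarith
  have h5 := (h3.trans_isLittleO h2).trans_isBigO h4
  exact isLittleO_irrefl (Frequently.of_forall fun n => by positivity) h5

theorem no_path0 {r : ℕ} (hr : 1 ≤ r) {z₀ : ℝ} {X : ℝ → ℝ}
    (hX : X =o[𝓝 z₀] fun z => z - z₀) (h : ∀ᶠ z in 𝓝 z₀, KK r (X z, z) = 0) : False := by
  have h1 := (isLittleO_iff.1 hX) zero_lt_one
  have h2 := (tendsto_near z₀).eventually (h1.and h)
  obtain ⟨n, hn1, hn2⟩ := h2.exists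
  rw [one_mul] at hn1
  have h3 : |X (near z₀ n)| ≤ (1 / 4) ^ n := hn1.trans (abs_near_sub z₀ n)
  have h4 := KK_near hr z₀ _ n h3
  rw [hn2] at h4
  have h5 : 0 < (1 / 4 : ℝ) ^ (n * r) * (Real.cos 1 * eta (3 / 4)) :=
    mul_pos (by positivity) (mul_pos Real.cos_one_pos eta_pos)
  linarith

section Chart

variable {r q d : ℕ} {V : Set (Fin d → ℝ)} {φ : (Fin d → ℝ) → J 2}

/-- coordinate functions as continuous linear maps -/
def cX : J 2 →L[ℝ] ℝ := ContinuousLinearMap.fst ℝ ℝ (Fin 3 → ℝ)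
/-- coordinate functions as continuous linear maps -/
def cY (i : Fin 3) : J 2 →L[ℝ] ℝ :=
  (ContinuousLinearMap.proj i).comp (ContinuousLinearMap.snd ℝ ℝ (Fin 3 → ℝ))

@[simp] theorem cX_apply (z : J 2) : cX z = z.1 := rfl
@[simp] theorem cY_apply (i : Fin 3) (z : J 2) : cY i z = z.2 i := rfl

theorem contDiffOn_comp (hφ : ContDiffOn ℝ q φ V) (l : J 2 →L[ℝ] ℝ) :
    ContDiffOn ℝ q (fun v => l (φ v)) V :=
  l.contDiff.comp_contDiffOn hφ

theorem contDiffAt_comp (hV : IsOpen V) (hφ : ContDiffOn ℝ q φ V) (l : J 2 →L[ℝ] ℝ)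
    {v : Fin d → ℝ} (hv : v ∈ V) : ContDiffAt ℝ q (fun v => l (φ v)) v :=
  (contDiffOn_comp hφ l).contDiffAt (hV.mem_nhds hv)

theorem fderiv_comp_apply {v : Fin d → ℝ} (hd : DifferentiableAt ℝ φ v) (l : J 2 →L[ℝ] ℝ)
    (w : Fin d → ℝ) : fderiv ℝ (fun v => l (φ v)) v w = l (fderiv ℝ φ v w) := by
  have h : HasFDerivAt (fun v => l (φ v)) (l.comp (fderiv ℝ φ v)) v :=
    l.hasFDerivAt.comp v hd.hasFDerivAt
  rw [h.fderiv]
  rfl

/-- The data at an accumulation point. -/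
theorem chart_data (hr : 2 ≤ r) (hq : 1 ≤ q) (hV : IsOpen V) (hφ : ContDiffOn ℝ q φ V)
    (hinj : ∀ v ∈ V, Function.Injective (fderiv ℝ φ v))
    (hsub : ∀ v ∈ V, φ v ∈ tilde (hyp (ff r))) {v₀ : Fin d → ℝ}
    (hv₀ : v₀ ∈ V ∩ φ ⁻¹' BB) (hacc : AccPt v₀ (𝓟 (V ∩ φ ⁻¹' BB))) :
    ∃ e : Fin d → ℝ, fderiv ℝ (fun v => cX (φ v)) v₀ e = 0 ∧
      fderiv ℝ (fun v => cY 2 (φ v)) v₀ e = 0 ∧ fderiv ℝ (fun v => cY 1 (φ v)) v₀ e ≠ 0 ∧
      ∀ w, fderiv ℝ (fun v => cX (φ v)) v₀ w = 0 → fderiv ℝ (fun v => cY 2 (φ v)) v₀ w = 0 →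
        fderiv ℝ (fun v => cY 1 (φ v)) v₀ w = 0 → w = 0 := by
  have hqne : (q : WithTop ℕ∞) ≠ 0 := by exact_mod_cast (by omega : q ≠ 0)
  have hrne : (r : WithTop ℕ∞) ≠ 0 := by exact_mod_cast (by omega : r ≠ 0)
  have hd : DifferentiableAt ℝ φ v₀ :=
    (hφ.contDiffAt (hV.mem_nhds hv₀.1)).differentiableAt hqne
  have hdl : ∀ l : J 2 →L[ℝ] ℝ, DifferentiableAt ℝ (fun v => l (φ v)) v₀ := fun l =>
    l.differentiableAt.comp v₀ hd
  obtain ⟨hX0, hY0, ⟨b, hb⟩, hW0⟩ := hv₀.2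
  have hnon : ∀ w, fderiv ℝ (fun v => cX (φ v)) v₀ w = 0 →
      fderiv ℝ (fun v => cY 2 (φ v)) v₀ w = 0 →
        fderiv ℝ (fun v => cY 1 (φ v)) v₀ w = 0 → w = 0 := by
    intro w h1 h2 h3
    have h4 : fderiv ℝ (fun v => cY 0 (φ v)) v₀ w = 0 := by
      have h5 : (fun v => cY 0 (φ v)) =ᶠ[𝓝 v₀] fun v => ff r (cX (φ v), cY 1 (φ v)) := by
        filter_upwards [hV.mem_nhds hv₀.1] with v hv
        exact ((mem_tilde_ff (by omega) _).1 (hsub v hv)).1
      rw [h5.fderiv_eq]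
      have h6 : HasFDerivAt (ff r) (fderiv ℝ (ff r) (cX (φ v₀), cY 1 (φ v₀)))
          (cX (φ v₀), cY 1 (φ v₀)) :=
        ((contDiff_ff r).contDiffAt.differentiableAt hrne).hasFDerivAt
      have h7 := HasFDerivAt.comp (g := ff r) (f := fun v => (cX (φ v), cY 1 (φ v))) v₀ h6
        ((hdl cX).hasFDerivAt.prodMk (hdl (cY 1)).hasFDerivAt)
      have h8 : (fun v => ff r (cX (φ v), cY 1 (φ v))) =
          ff r ∘ fun v => (cX (φ v), cY 1 (φ v)) := rfl
      rw [h8]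
      rw [h7.fderiv]
      simp only [ContinuousLinearMap.comp_apply, ContinuousLinearMap.prod_apply, h1, h3]
      rw [fderiv_ff (by omega)]
      ring
    rw [fderiv_comp_apply hd] at h1 h2 h3 h4
    apply hinj v₀ hv₀.1
    rw [map_zero]
    refine Prod.ext h1 ?_
    funext i
    fin_cases i
    · exact h4
    · exact h3
    · exact h2
  obtain ⟨e, he, he0⟩ := tangentConeAt_nonempty_of_properSpace (𝕜 := ℝ) hacc
  have h1 : fderiv ℝ (fun v => cX (φ v)) v₀ e = 0 :=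
    fderiv_eq_zero_of_mem_tangentCone (hdl cX) (fun v hv => hv.2.1) hv₀ he
  have h2 : fderiv ℝ (fun v => cY 2 (φ v)) v₀ e = 0 :=
    fderiv_eq_zero_of_mem_tangentCone (hdl (cY 2)) (fun v hv => hv.2.2.2.2) hv₀ he
  exact ⟨e, h1, h2, fun h3 => he0 (hnon e h1 h2 h3), hnon⟩

/-- no accumulation of bad points in a curve -/
theorem chart_one {V : Set (Fin 1 → ℝ)} {φ : (Fin 1 → ℝ) → J 2} (hr : 2 ≤ r) (hq : 1 ≤ q)
    (hrq : r ≤ 2 * q) (hV : IsOpen V) (hφ : ContDiffOn ℝ q φ V)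
    (hinj : ∀ v ∈ V, Function.Injective (fderiv ℝ φ v))
    (hsub : ∀ v ∈ V, φ v ∈ tilde (hyp (ff r))) {v₀ : Fin 1 → ℝ}
    (hv₀ : v₀ ∈ V ∩ φ ⁻¹' BB) (hacc : AccPt v₀ (𝓟 (V ∩ φ ⁻¹' BB))) : False := by
  obtain ⟨e, -, -, he, -⟩ := chart_data hr hq hV hφ hinj hsub hv₀ hacc
  have he0 : e ≠ 0 := by
    rintro rfl
    exact he (map_zero _)
  have he1 : e 0 ≠ 0 := by
    intro h
    apply he0
    funext i
    fin_cases i
    exact h
  set L : ℝ → (Fin 1 → ℝ) := fun s => v₀ + s • e with hL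
  have hLd : ContDiff ℝ q L := by
    simp only [hL]
    fun_prop
  have hL0 : L 0 = v₀ := by simp [hL]
  set V' : Set ℝ := L ⁻¹' V with hV'
  have hV'o : IsOpen V' := hV.preimage hLd.continuous
  have h0V' : (0 : ℝ) ∈ V' := by
    simp only [hV', mem_preimage, hL0]
    exact hv₀.1
  have hacc' : AccPt (0 : ℝ) (𝓟 {s | φ (L s) ∈ BB}) := by
    set τ : (Fin 1 → ℝ) → ℝ := fun v => (v 0 - v₀ 0) / e 0 with hτ
    have hτi : Function.Injective τ := by
      intro v w h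
      funext i
      fin_cases i
      simp only [hτ] at h
      field_simp at h
      change v 0 = w 0
      linarith
    have h1 := hacc.map (f := τ)
      (((continuous_apply 0).sub continuous_const).div_const _).continuousAt hτi
    have h2 : τ v₀ = 0 := by simp [hτ]
    rw [h2, map_principal] at h1
    refine h1.mono (principal_mono.2 ?_)
    rintro s ⟨v, hv, rfl⟩
    have : L (τ v) = v := by
      funext i
      fin_cases i
      change v₀ 0 + (v 0 - v₀ 0) / e 0 * e 0 = v 0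
      rw [div_mul_cancel₀ _ he1]
      ring
    simp only [mem_ofPred_eq, this]
    exact hv.2
  have hcd : ∀ l : J 2 →L[ℝ] ℝ, ContDiffOn ℝ q (fun s => l (φ (L s))) V' := fun l =>
    (contDiffOn_comp hφ l).comp hLd.contDiffOn fun s hs => hs
  have hXo : (fun s => cX (φ (L s))) =o[𝓝 0] fun s => (s - 0) ^ q :=
    isLittleO_of_accPt (hV'o.mem_nhds h0V') (hcd cX)
      (hacc'.mono (principal_mono.2 fun s hs => hs.1))
  have hWo : (fun s => cY 2 (φ (L s))) =o[𝓝 0] fun s => (s - 0) ^ q :=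
    isLittleO_of_accPt (hV'o.mem_nhds h0V') (hcd (cY 2))
      (hacc'.mono (principal_mono.2 fun s hs => hs.2.2.2))
  set μ := fderiv ℝ (fun v => cY 1 (φ v)) v₀ e with hμ
  have hqne : (q : WithTop ℕ∞) ≠ 0 := by exact_mod_cast (by omega : q ≠ 0)
  have hZ : HasStrictDerivAt (fun s => cY 1 (φ (L s))) μ 0 := by
    have h1 : HasStrictFDerivAt (fun v => cY 1 (φ v)) (fderiv ℝ (fun v => cY 1 (φ v)) v₀)
        (L 0) := by
      rw [hL0]
      exact (contDiffAt_comp hV hφ (cY 1) hv₀.1).hasStrictFDerivAt hqne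
    have h2 : HasStrictDerivAt L e 0 := by
      have h3 : HasStrictDerivAt (fun s : ℝ => s • e) ((1 : ℝ) • e) 0 :=
        (hasStrictDerivAt_id (0 : ℝ)).smul_const e
      rw [one_smul] at h3
      exact h3.const_add v₀
    exact h1.comp_hasStrictDerivAt 0 h2
  set g := hZ.localInverse _ _ _ he with hg
  set z₀ := cY 1 (φ (L 0)) with hz₀
  have hg1 : ∀ᶠ z in 𝓝 z₀, cY 1 (φ (L (g z))) = z := hZ.eventually_right_inverse he
  have hg2 : HasStrictDerivAt g μ⁻¹ z₀ := hZ.to_localInverse he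
  have hg0 : g z₀ = 0 := (hZ.hasStrictFDerivAt_equiv he).localInverse_apply_image
  have hgt : Tendsto g (𝓝 z₀) (𝓝 0) := by
    have := hg2.hasDerivAt.continuousAt.tendsto
    rwa [hg0] at this
  have hgO : (fun n => g (near z₀ n) - 0) =O[atTop] fun n : ℕ => (1 / 4 : ℝ) ^ n := by
    have h1 : (fun z => g z - g z₀) =O[𝓝 z₀] fun z => z - z₀ := hg2.hasDerivAt.isBigO_sub
    rw [hg0] at h1
    refine (h1.comp_tendsto (tendsto_near z₀)).trans ?_
    refine IsBigO.of_bound 1 (Eventually.of_forall fun n => ?_)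
    rw [one_mul, Real.norm_of_nonneg (by positivity : (0 : ℝ) ≤ (1 / 4) ^ n)]
    exact abs_near_sub z₀ n
  have hgn : Tendsto (fun n => g (near z₀ n)) atTop (𝓝 0) := hgt.comp (tendsto_near z₀)
  refine no_path hr hrq hq (z₀ := z₀) (X := fun z => cX (φ (L (g z))))
    (W := fun z => cY 2 (φ (L (g z)))) ?_ ?_ ?_
  · exact (hXo.comp_tendsto hgn).trans_isBigO (hgO.pow q)
  · exact (hWo.comp_tendsto hgn).trans_isBigO (hgO.pow q)
  · filter_upwards [hg1, hgt.eventually (hV'o.mem_nhds h0V')] with z hz1 hz2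
    have h1 := ((mem_tilde_ff (by omega) _).1 (hsub _ hz2)).2
    simp only [cY_apply] at hz1
    rw [hz1] at h1
    exact h1

/-- An injective linear map between planes is invertible. -/
theorem exists_equiv {A B : (Fin 2 → ℝ) →L[ℝ] ℝ} (h : ∀ w, A w = 0 → B w = 0 → w = 0) :
    ∃ Φ : (Fin 2 → ℝ) ≃L[ℝ] ℝ × ℝ, (Φ : (Fin 2 → ℝ) →L[ℝ] ℝ × ℝ) = A.prod B := by
  have hinj : Function.Injective (A.prod B).toLinearMap := by
    rw [← LinearMap.ker_eq_bot, LinearMap.ker_eq_bot']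
    intro w hw
    have h1 : (A w, B w) = (0, 0) := hw
    exact h w (Prod.ext_iff.1 h1).1 (Prod.ext_iff.1 h1).2
  have hfr : Module.finrank ℝ (Fin 2 → ℝ) = Module.finrank ℝ (ℝ × ℝ) := by simp
  set Ψ := LinearEquiv.ofInjectiveOfFinrankEq (A.prod B).toLinearMap hinj hfr with hΨ
  refine ⟨Ψ.toContinuousLinearEquiv, ?_⟩
  ext w <;> rfl

/-- no accumulation of bad points in a surface -/
theorem chart_two {V : Set (Fin 2 → ℝ)} {φ : (Fin 2 → ℝ) → J 2} (hr : 2 ≤ r) (hq : 1 ≤ q)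
    (hV : IsOpen V) (hφ : ContDiffOn ℝ q φ V)
    (hinj : ∀ v ∈ V, Function.Injective (fderiv ℝ φ v))
    (hsub : ∀ v ∈ V, φ v ∈ tilde (hyp (ff r))) {v₀ : Fin 2 → ℝ}
    (hv₀ : v₀ ∈ V ∩ φ ⁻¹' BB) (hacc : AccPt v₀ (𝓟 (V ∩ φ ⁻¹' BB))) : False := by
  obtain ⟨e, heX, heW, heZ, hnon⟩ := chart_data hr hq hV hφ hinj hsub hv₀ hacc
  have hqne : (q : WithTop ℕ∞) ≠ 0 := by exact_mod_cast (by omega : q ≠ 0)
  have he0 : e ≠ 0 := by
    rintro rfl
    exact heZ (map_zero _)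
  have hker : ∀ A : (Fin 2 → ℝ) →L[ℝ] ℝ, A ≠ 0 → A e = 0 → ∀ w, A w = 0 → ∃ c : ℝ, c • e = w := by
    intro A hA hAe w hw
    have h1 : Module.finrank ℝ (LinearMap.range A.toLinearMap) = 1 := by
      have : LinearMap.range A.toLinearMap = ⊤ := by
        apply LinearMap.range_eq_top.2
        apply LinearMap.surjective
        intro h
        apply hA
        ext v
        exact congrArg (fun l => l v) h
      rw [this, finrank_top]
      simp
    have h2 := LinearMap.finrank_range_add_finrank_ker A.toLinearMap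
    rw [h1] at h2
    have h3 : Module.finrank ℝ (LinearMap.ker A.toLinearMap) = 1 := by
      have : Module.finrank ℝ (Fin 2 → ℝ) = 2 := by simp
      omega
    have h4 := (finrank_eq_one_iff_of_nonzero' (⟨e, hAe⟩ : LinearMap.ker A.toLinearMap)
      (by intro h; exact he0 (congrArg Subtype.val h))).1 h3
    obtain ⟨c, hc⟩ := h4 ⟨w, hw⟩
    exact ⟨c, congrArg Subtype.val hc⟩
  have hstr : ∀ l : J 2 →L[ℝ] ℝ, HasStrictFDerivAt (fun v => l (φ v))
      (fderiv ℝ (fun v => l (φ v)) v₀) v₀ := fun l =>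
    (contDiffAt_comp hV hφ l hv₀.1).hasStrictFDerivAt hqne
  set DX := fderiv ℝ (fun v => cX (φ v)) v₀ with hDX
  set DZ := fderiv ℝ (fun v => cY 1 (φ v)) v₀ with hDZ
  set DW := fderiv ℝ (fun v => cY 2 (φ v)) v₀ with hDW
  have hX0 : cX (φ v₀) = 0 := hv₀.2.1
  have hW0 : cY 2 (φ v₀) = 0 := hv₀.2.2.2.2
  set z₀ := cY 1 (φ v₀) with hz₀
  -- the local inverse of `(u, z)` for a coordinate `u` which vanishes at the point
  have key : ∀ l : J 2 →L[ℝ] ℝ, l (φ v₀) = 0 → (fderiv ℝ (fun v => l (φ v)) v₀) ≠ 0 →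
      fderiv ℝ (fun v => l (φ v)) v₀ e = 0 →
      ∃ γ : ℝ → (Fin 2 → ℝ), γ z₀ = v₀ ∧ (∃ e', HasDerivAt γ e' z₀ ∧
        fderiv ℝ (fun v => l (φ v)) v₀ e' = 0) ∧ ContinuousAt γ z₀ ∧
        ∀ᶠ z in 𝓝 z₀, l (φ (γ z)) = 0 ∧ cY 1 (φ (γ z)) = z := by
    intro l hl0 hlne hle
    obtain ⟨Φ, hΦ⟩ := exists_equiv (A := fderiv ℝ (fun v => l (φ v)) v₀) (B := DZ) (by
      intro w h1 h2
      obtain ⟨c, hc⟩ := hker _ hlne hle w h1
      rw [← hc, map_smul, smul_eq_mul, mul_eq_zero] at h2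
      rcases h2 with h2 | h2
      · rw [← hc, h2, zero_smul]
      · exact absurd h2 heZ)
    have hG : HasStrictFDerivAt (fun v => (l (φ v), cY 1 (φ v)))
        (Φ : (Fin 2 → ℝ) →L[ℝ] ℝ × ℝ) v₀ := by
      rw [hΦ]
      exact (hstr l).prodMk (hstr (cY 1))
    have hp0 : (l (φ v₀), cY 1 (φ v₀)) = (0, z₀) := by rw [hl0]
    set g := hG.localInverse _ _ _ with hg
    have hg1 : ∀ᶠ p in 𝓝 (0, z₀), (l (φ (g p)), cY 1 (φ (g p))) = p := by
      have := hG.eventually_right_inverse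
      rwa [hp0] at this
    have hg0 : g (0, z₀) = v₀ := by
      have := hG.localInverse_apply_image
      rwa [hp0] at this
    have hg2 : HasStrictFDerivAt g (Φ.symm : ℝ × ℝ →L[ℝ] (Fin 2 → ℝ)) (0, z₀) := by
      have := hG.to_localInverse
      rwa [hp0] at this
    have hc : HasDerivAt (fun z : ℝ => ((0 : ℝ), z)) (0, 1) z₀ :=
      (hasDerivAt_const z₀ (0 : ℝ)).prodMk (hasDerivAt_id z₀)
    have hγ : HasDerivAt (fun z : ℝ => g (0, z)) (Φ.symm (0, 1)) z₀ :=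
      hg2.hasFDerivAt.comp_hasDerivAt z₀ hc
    refine ⟨fun z => g (0, z), hg0, ⟨_, hγ, ?_⟩, hγ.continuousAt, ?_⟩
    · have h1 : Φ (Φ.symm (0, 1)) = ((0 : ℝ), (1 : ℝ)) := Φ.apply_symm_apply _
      have h2 : Φ (Φ.symm (0, 1)) =
          (fderiv ℝ (fun v => l (φ v)) v₀ (Φ.symm (0, 1)), DZ (Φ.symm (0, 1))) := by
        have := congrArg (fun m => m (Φ.symm (0, 1))) hΦ
        exact this
      rw [h1] at h2
      exact (Prod.ext_iff.1 h2).1.symm
    · have h3 : Tendsto (fun z : ℝ => ((0 : ℝ), z)) (𝓝 z₀) (𝓝 (0, z₀)) :=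
        hc.continuousAt
      filter_upwards [h3.eventually hg1] with z hz
      exact ⟨(Prod.ext_iff.1 hz).1, (Prod.ext_iff.1 hz).2⟩
  have hVn : V ∈ 𝓝 v₀ := hV.mem_nhds hv₀.1
  by_cases hcase : DX = 0
  · have hDWne : DW ≠ 0 := by
      intro h
      -- a second vector in the common kernel
      have h1 : ∀ w, DZ w = 0 → w = 0 := fun w hw => hnon w (by rw [hcase]; rfl) (by rw [h]; rfl) hw
      have h2 : Function.Injective DZ.toLinearMap := by
        rw [← LinearMap.ker_eq_bot, LinearMap.ker_eq_bot']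
        exact h1
      have h3 := LinearMap.finrank_le_finrank_of_injective h2
      simp at h3
    obtain ⟨γ, hγ0, ⟨e', hγ1, -⟩, hγ2, hγ3⟩ := key (cY 2) hW0 hDWne heW
    refine no_path0 (by omega : 1 ≤ r) (z₀ := z₀) (X := fun z => cX (φ (γ z))) ?_ ?_
    · have h1 : HasFDerivAt (fun v => cX (φ v)) (0 : (Fin 2 → ℝ) →L[ℝ] ℝ) (γ z₀) := by
        rw [hγ0, ← hcase]
        exact (hstr cX).hasFDerivAt
      have h2 : HasDerivAt (fun z => cX (φ (γ z))) 0 z₀ := by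
        exact (h1.comp_hasDerivAt z₀ hγ1).congr_deriv (by simp)
      have h3 := h2.isLittleO
      simp only [smul_zero, sub_zero] at h3
      refine h3.congr_left fun z => ?_
      rw [hγ0, hX0, sub_zero]
    · have h4 : ∀ᶠ z in 𝓝 z₀, γ z ∈ V := by
        apply hγ2.eventually
        rw [hγ0]
        exact hVn
      filter_upwards [h4, hγ3] with z hz1 hz2
      have h1 := ((mem_tilde_ff (by omega : 1 ≤ r) _).1 (hsub _ hz1)).2
      have h2 := hz2.1
      have h3 := hz2.2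
      simp only [cY_apply] at h2 h3
      rw [h2, h3, zero_mul] at h1
      exact h1
  · obtain ⟨γ, hγ0, -, hγ2, hγ3⟩ := key cX hX0 hcase heX
    refine no_path0 (by omega : 1 ≤ r) (z₀ := z₀) (X := fun z => 0) ?_ ?_
    · exact isLittleO_zero _ _
    · have h4 : ∀ᶠ z in 𝓝 z₀, γ z ∈ V := by
        apply hγ2.eventually
        rw [hγ0]
        exact hVn
      filter_upwards [h4, hγ3] with z hz1 hz2
      have h1 := ((mem_tilde_ff (by omega : 1 ≤ r) _).1 (hsub _ hz1)).2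
      have h2 := hz2.1
      have h3 := hz2.2
      simp only [cY_apply, cX_apply] at h2 h3
      rw [h2, h3, LL_zero] at h1
      simpa using h1

end Chart

end Q178.Jets
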