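import Mathlib

/-!
# Jets of functions of one variable, submanifolds and transversality
-/

set_option autoImplicit false

open Set Filter Topology
open scoped ContDiff

namespace Q178.Jets

/-- The space `J^p(ℝ, ℝ)` of the `p`-jets of smooth functions `f : ℝ → ℝ`, in the coordinates
`(x, (f(x), f'(x), …, f^{(p)}(x)))`. Its dimension is `p + 2`. -/
abbrev J (p : ℕ) : Type := ℝ × (Fin (p + 1) → ℝ)

/-- The `p`-jet `j^p_x f`; the map `x ↦ jet p f x` is the `p`-jet extension `j^p f` of `f`. -/
noncomputable def jet (p : ℕ) (f : ℝ → ℝ) (x : ℝ) : J p := (x, fun i => iteratedDeriv i f x)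

/-- `M` is an embedded submanifold of `E`, of class `C^k` and of codimension `c`: near each of its
points it is the image of an open subset `V` of `ℝ^d`, where `d + c` is the dimension of `E`, under
a map `φ` of class `C^k` which is a topological embedding of `V` and, if `k ≥ 1`, an immersion. For
`k = 0` this says that `M` is, with the subspace topology, a topological manifold of
dimension `d`. -/
def IsSubmanifold {E : Type} [NormedAddCommGroup E] [NormedSpace ℝ E] (k c : ℕ) (M : Set E) :
    Prop :=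
  ∀ a ∈ M, ∃ (d : ℕ) (U : Set E) (V : Set (Fin d → ℝ)) (φ : (Fin d → ℝ) → E),
    d + c = Module.finrank ℝ E ∧ IsOpen U ∧ a ∈ U ∧ IsOpen V ∧ φ '' V = M ∩ U ∧
    IsEmbedding (V.domRestrict φ) ∧ ContDiffOn ℝ k φ V ∧
    (1 ≤ k → ∀ v ∈ V, Function.Injective (fderiv ℝ φ v))

/-- The tangent space at `a` of a submanifold `A` of `E` (of class `C^1` at least): the velocities
at `a` of the curves in `A` through `a`. -/
def tangentSpace {E : Type} [NormedAddCommGroup E] [NormedSpace ℝ E] (A : Set E) (a : E) :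
    Submodule ℝ E :=
  Submodule.span ℝ {v | ∃ γ : ℝ → E, γ 0 = a ∧ (∀ᶠ t in 𝓝 0, γ t ∈ A) ∧ HasDerivAt γ v 0}

/-- The set `Ã` of the `(p+1)`-jets `j^{p+1}_x f` such that `j^p f` maps `x` to a point of `A` and is
not transverse to `A` at `x`. -/
def tilde {p : ℕ} (A : Set (J p)) : Set (J (p + 1)) :=
  {z | ∃ (f : ℝ → ℝ) (x : ℝ), ContDiff ℝ ∞ f ∧ jet (p + 1) f x = z ∧ jet p f x ∈ A ∧
    Submodule.span ℝ {deriv (jet p f) x} ⊔ tangentSpace A (jet p f x) ≠ ⊤}

end Q178.Jets
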