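import Pool.Agent.Q178.Jets.Chart

/-!
# Hypersurfaces whose non-transversality set has no decomposition
-/

set_option autoImplicit false

open Set Filter Topology Asymptotics
open scoped ContDiff

namespace Q178.Jets

/-- If every submanifold piece meets an uncountable subset `B` of `S` in a countable set then
`S` is not the union of countably many such pieces. -/
theorem no_union {E : Type} {B S : Set E} (hB : ¬ B.Countable) (hBS : B ⊆ S) {P : Set E → Prop}
    (hP : ∀ M, P M → M ⊆ S → (M ∩ B).Countable) :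
    ¬ ∃ M : ℕ → Set E, (∀ i, P (M i)) ∧ ⋃ i, M i = S := by
  rintro ⟨M, hM, hU⟩
  apply hB
  have h1 : B = ⋃ i, M i ∩ B := by
    rw [← iUnion_inter, hU, inter_eq_self_of_subset_right hBS]
  rw [h1]
  exact countable_iUnion fun i => hP (M i) (hM i) (by rw [← hU]; exact subset_iUnion M i)

theorem countable_of_local {E : Type} [TopologicalSpace E] [SecondCountableTopology E] {T : Set E}
    (h : ∀ a ∈ T, ∃ U, IsOpen U ∧ a ∈ U ∧ (T ∩ U).Countable) : T.Countable := by
  choose! U hU haU hc using h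
  obtain ⟨t, htT, htc, hsub⟩ := TopologicalSpace.countable_cover_nhdsWithin (s := T) (f := U)
    (fun a ha => mem_nhdsWithin_of_mem_nhds ((hU a ha).mem_nhds (haU a ha)))
  have h1 : T ⊆ ⋃ a ∈ t, T ∩ U a := by
    intro x hx
    obtain ⟨a, ha, hxa⟩ := mem_iUnion₂.1 (hsub hx)
    exact mem_iUnion₂.2 ⟨a, ha, hx, hxa⟩
  exact (htc.biUnion fun a ha => hc a (htT ha)).mono h1

theorem finrank_J2 : Module.finrank ℝ (J 2) = 4 := by
  simp

theorem countable_piece {r q : ℕ} (hr : 2 ≤ r) (hq : 1 ≤ q) (hrq : r ≤ 2 * q) {M : Set (J 2)}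
    {c : ℕ} (hc : 1 < c) (hM : IsSubmanifold q c M) (hsub : M ⊆ tilde (hyp (ff r))) :
    (M ∩ BB).Countable := by
  apply countable_of_local
  rintro a ⟨haM, -⟩
  obtain ⟨d, U, V, φ, hd, hU, haU, hV, himg, -, hφ, hinj⟩ := hM a haM
  refine ⟨U, hU, haU, ?_⟩
  have hinj' := hinj hq
  have hsubV : ∀ v ∈ V, φ v ∈ tilde (hyp (ff r)) := fun v hv =>
    hsub ((himg ▸ mem_image_of_mem φ hv : φ v ∈ M ∩ U).1)
  have hT : (V ∩ φ ⁻¹' BB).Countable := by
    rw [finrank_J2] at hd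
    have hd' : d = 0 ∨ d = 1 ∨ d = 2 := by omega
    rcases hd' with rfl | rfl | rfl
    · exact Set.to_countable _
    · exact countable_of_not_accPt fun v hv hacc =>
        chart_one hr hq hrq hV hφ hinj' hsubV hv hacc
    · exact countable_of_not_accPt fun v hv hacc =>
        chart_two hr hq hV hφ hinj' hsubV hv hacc
  refine (hT.image φ).mono ?_
  rintro b ⟨⟨hbM, hbB⟩, hbU⟩
  have : b ∈ φ '' V := by
    rw [himg]
    exact ⟨hbM, hbU⟩
  obtain ⟨v, hv, rfl⟩ := this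
  exact ⟨v, ⟨hv, hbB⟩, rfl⟩

/-! ### The case `r = 1` -/

/-- the function defining the hypersurface in the case `r = 1` -/
noncomputable def f1 (k : ℝ → ℝ) (p : ℝ × ℝ) : ℝ := p.1 * p.2 - p.1 * |p.1| - p.1 * k p.2

theorem hasDerivAt_mul_abs (x : ℝ) : HasDerivAt (fun x : ℝ => x * |x|) (2 * |x|) x := by
  rcases lt_trichotomy x 0 with h | h | h
  · have h1 : (fun x : ℝ => x * |x|) =ᶠ[𝓝 x] fun x => -(x ^ 2) := by
      filter_upwards [Iio_mem_nhds h] with y hy
      rw [abs_of_neg hy]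
      ring
    refine HasDerivAt.congr_of_eventuallyEq ?_ h1
    rw [abs_of_neg h]
    exact ((hasDerivAt_pow 2 x).neg).congr_deriv (by simp)
  · subst h
    rw [hasDerivAt_iff_isLittleO]
    simp only [abs_zero, mul_zero, sub_zero, smul_zero]
    rw [isLittleO_iff]
    intro c hc
    filter_upwards [Metric.ball_mem_nhds (0 : ℝ) hc] with y hy
    rw [Metric.mem_ball, dist_zero_right, Real.norm_eq_abs] at hy
    rw [norm_mul, Real.norm_eq_abs, Real.norm_eq_abs, abs_abs, mul_comm]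
    gcongr
  · have h1 : (fun x : ℝ => x * |x|) =ᶠ[𝓝 x] fun x => x ^ 2 := by
      filter_upwards [Ioi_mem_nhds h] with y hy
      rw [abs_of_pos hy]
      ring
    refine HasDerivAt.congr_of_eventuallyEq ?_ h1
    rw [abs_of_pos h]
    exact (hasDerivAt_pow 2 x).congr_deriv (by simp)

theorem contDiff_mul_abs : ContDiff ℝ 1 fun x : ℝ => x * |x| := by
  rw [contDiff_one_iff_deriv]
  refine ⟨fun x => (hasDerivAt_mul_abs x).differentiableAt, ?_⟩
  have : deriv (fun x : ℝ => x * |x|) = fun x => 2 * |x| :=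
    funext fun x => (hasDerivAt_mul_abs x).deriv
  rw [this]
  fun_prop

theorem contDiff_f1 {k : ℝ → ℝ} (hk : ContDiff ℝ 1 k) : ContDiff ℝ 1 (f1 k) := by
  unfold f1
  exact ((contDiff_fst.mul contDiff_snd).sub (contDiff_mul_abs.comp contDiff_fst)).sub
    (contDiff_fst.mul (hk.comp contDiff_snd))

theorem fderiv_f1 {k : ℝ → ℝ} (hk : ContDiff ℝ 1 k) (p : ℝ × ℝ) (u v : ℝ) :
    fderiv ℝ (f1 k) p (u, v) =
      u * (p.2 - 2 * |p.1| - k p.2) + v * (p.1 * (1 - deriv k p.2)) := by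
  have h1 : HasFDerivAt (fun p : ℝ × ℝ => p.1 * p.2)
      (p.1 • ContinuousLinearMap.snd ℝ ℝ ℝ + p.2 • ContinuousLinearMap.fst ℝ ℝ ℝ) p :=
    hasFDerivAt_fst.mul hasFDerivAt_snd
  have h2 : HasFDerivAt (fun p : ℝ × ℝ => p.1 * |p.1|)
      ((2 * |p.1|) • ContinuousLinearMap.fst ℝ ℝ ℝ) p :=
    (hasDerivAt_mul_abs p.1).comp_hasFDerivAt p hasFDerivAt_fst
  have h3 : HasFDerivAt (fun p : ℝ × ℝ => k p.2)
      (deriv k p.2 • ContinuousLinearMap.snd ℝ ℝ ℝ) p :=
    (hk.contDiffAt.differentiableAt (by norm_num)).hasDerivAt.comp_hasFDerivAt p hasFDerivAt_snd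
  have h4 : HasFDerivAt (fun p : ℝ × ℝ => p.1 * k p.2) _ p := hasFDerivAt_fst.mul h3
  have h5 : HasFDerivAt (f1 k) _ p := (h1.sub h2).sub h4
  rw [h5.fderiv]
  simp only [sub_apply, add_apply, smul_apply, ContinuousLinearMap.coe_snd',
    ContinuousLinearMap.coe_fst', smul_eq_mul]
  ring

theorem mem_tilde_f1 {k : ℝ → ℝ} (hk : ContDiff ℝ 1 k) (z : J 2) :
    z ∈ tilde (hyp (f1 k)) ↔ z.2 0 = f1 k (z.1, z.2 1) ∧
      2 * |z.1| + k (z.2 1) = z.2 2 * (z.1 * (1 - deriv k (z.2 1))) := by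
  rw [mem_tilde_hyp ((contDiff_f1 hk).differentiable (by norm_num)), fderiv_f1 hk]
  simp only
  constructor <;> rintro ⟨h1, h2⟩ <;> exact ⟨h1, by linarith⟩

/-- the bad points in the case `r = 1` -/
def B1 : Set (J 2) := {z | z.1 = 0 ∧ z.2 0 = 0 ∧ z.2 1 ∈ cantorSet ∧ z.2 2 = 0}

theorem isTotallyDisconnected_cantorSet : IsTotallyDisconnected cantorSet := by
  rw [← totallyDisconnectedSpace_subtype_iff]
  exact cantorSetHomeomorphNatToBool.symm.totallyDisconnectedSpace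

theorem not_countable_cantorSet : ¬ cantorSet.Countable := by
  intro h
  have h3 : Cardinal.mk (ℕ → Bool) = Cardinal.continuum := by simp
  have h1 : Countable cantorSet := h
  have h2 : Countable (ℕ → Bool) := cantorSetHomeomorphNatToBool.toEquiv.countable_iff.1 h1
  have h4 : Cardinal.mk (ℕ → Bool) ≤ Cardinal.aleph0 := Cardinal.mk_le_aleph0_iff.2 h2
  rw [h3] at h4
  exact absurd h4 (not_le.2 Cardinal.aleph0_lt_continuum)

theorem not_countable_B1 : ¬ B1.Countable := by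
  intro h
  have h1 : (fun z : J 2 => z.2 1) '' B1 = cantorSet := by
    ext t
    constructor
    · rintro ⟨z, hz, rfl⟩
      exact hz.2.2.1
    · intro ht
      exact ⟨(0, ![0, t, 0]), ⟨rfl, rfl, ht, rfl⟩, rfl⟩
  apply not_countable_cantorSet
  rw [← h1]
  exact h.image _

theorem B1_subset {k : ℝ → ℝ} (hk : ContDiff ℝ 1 k) (h0 : ∀ t ∈ cantorSet, k t = 0) :
    B1 ⊆ tilde (hyp (f1 k)) := by
  rintro ⟨x, y⟩ ⟨h1, h2, h3, h4⟩
  simp only at h1 h2 h3 h4
  rw [mem_tilde_f1 hk]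
  simp only
  rw [h1, h2, h4, h0 _ h3]
  simp [f1]

theorem countable_piece_one {q : ℕ} {k : ℝ → ℝ} (hk : ContDiff ℝ 1 k) (hk0 : ∀ t, 0 ≤ k t)
    (hkz : ∀ t, k t = 0 → t ∈ cantorSet) {M : Set (J 2)} {c : ℕ}
    (hM : IsSubmanifold q c M) (hsub : M ⊆ tilde (hyp (f1 k))) : (M ∩ B1).Countable := by
  apply countable_of_local
  rintro a ⟨haM, haB⟩
  obtain ⟨d, U, V, φ, -, hU, haU, hV, himg, hemb, hφ, -⟩ := hM a haM
  have haV : a ∈ φ '' V := by
    rw [himg]
    exact ⟨haM, haU⟩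
  obtain ⟨v₀, hv₀, rfl⟩ := haV
  have hφc : ContinuousOn φ V := hφ.continuousOn
  -- a small ball
  have hcont : ContinuousOn (fun v => |(φ v).2 2| * |1 - deriv k ((φ v).2 1)|) V := by
    have hdk : Continuous (deriv k) := hk.continuous_deriv (by norm_num)
    have h1 : ContinuousOn (fun v => (φ v).2 2) V :=
      (by fun_prop : Continuous fun z : J 2 => z.2 2).comp_continuousOn hφc
    have h2 : ContinuousOn (fun v => (φ v).2 1) V :=
      (by fun_prop : Continuous fun z : J 2 => z.2 1).comp_continuousOn hφc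
    exact h1.abs.mul ((continuousOn_const.sub (hdk.comp_continuousOn h2)).abs)
  have hopen : IsOpen (V ∩ {v | |(φ v).2 2| * |1 - deriv k ((φ v).2 1)| < 2}) :=
    hcont.isOpen_inter_preimage hV isOpen_Iio
  have hmem : v₀ ∈ V ∩ {v | |(φ v).2 2| * |1 - deriv k ((φ v).2 1)| < 2} := by
    refine ⟨hv₀, ?_⟩
    have : (φ v₀).2 2 = 0 := haB.2.2.2
    simp [this]
  obtain ⟨ε, hε, hball⟩ := Metric.isOpen_iff.1 hopen v₀ hmem
  have hballV : Metric.ball v₀ ε ⊆ V := fun v hv => (hball hv).1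
  -- on the ball `x = 0` and `k = 0`
  have hzero : ∀ v ∈ Metric.ball v₀ ε, (φ v).2 1 ∈ cantorSet := by
    intro v hv
    have h1 : φ v ∈ M ∩ U := himg ▸ mem_image_of_mem φ (hballV hv)
    have h2 := ((mem_tilde_f1 hk _).1 (hsub h1.1)).2
    have h3 : |(φ v).2 2| * |1 - deriv k ((φ v).2 1)| < 2 := (hball hv).2
    have h4 : (φ v).2 2 * ((φ v).1 * (1 - deriv k ((φ v).2 1))) ≤
        |(φ v).2 2| * |1 - deriv k ((φ v).2 1)| * |(φ v).1| := by
      refine (le_abs_self _).trans (le_of_eq ?_)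
      rw [abs_mul, abs_mul]
      ring
    have h5 := hk0 ((φ v).2 1)
    have h6 := abs_nonneg (φ v).1
    apply hkz
    nlinarith
  have hpre : IsPreconnected ((fun v => (φ v).2 1) '' Metric.ball v₀ ε) := by
    refine (convex_ball v₀ ε).isPreconnected.image _ ?_
    exact (by fun_prop : Continuous fun z : J 2 => z.2 1).comp_continuousOn (hφc.mono hballV)
  have hsing : ((fun v => (φ v).2 1) '' Metric.ball v₀ ε).Subsingleton := by
    refine isTotallyDisconnected_cantorSet _ ?_ hpre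
    rintro t ⟨v, hv, rfl⟩
    exact hzero v hv
  -- the ball is relatively open
  have hO : IsOpen {v : V | (v : Fin d → ℝ) ∈ Metric.ball v₀ ε} :=
    Metric.isOpen_ball.preimage continuous_subtype_val
  obtain ⟨O, hOo, hOe⟩ := hemb.isOpen_iff.1 hO
  refine ⟨U ∩ O, hU.inter hOo, ⟨haU, ?_⟩, ?_⟩
  · have : (⟨v₀, hv₀⟩ : V) ∈ V.domRestrict φ ⁻¹' O := by
      rw [hOe]
      exact Metric.mem_ball_self hε
    exact this
  · apply Set.Subsingleton.countable
    have key : ∀ b ∈ M ∩ B1 ∩ (U ∩ O), b = φ v₀ := by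
      rintro b ⟨⟨hbM, hbB⟩, hbU, hbO⟩
      have hbV : b ∈ φ '' V := by
        rw [himg]
        exact ⟨hbM, hbU⟩
      obtain ⟨v, hv, rfl⟩ := hbV
      have h1 : (⟨v, hv⟩ : V) ∈ V.domRestrict φ ⁻¹' O := hbO
      rw [hOe] at h1
      have h2 : (φ v).2 1 = (φ v₀).2 1 :=
        hsing (mem_image_of_mem _ h1) (mem_image_of_mem _ (Metric.mem_ball_self hε))
      refine Prod.ext (hbB.1.trans haB.1.symm) ?_
      funext i
      fin_cases i
      · exact hbB.2.1.trans haB.2.1.symm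
      · exact h2
      · exact hbB.2.2.2.trans haB.2.2.2.symm
    intro b hb b' hb'
    rw [key b hb, key b' hb']

/-- The main theorem. -/
theorem main (r : ℕ) (hr : 1 ≤ r) : ∃ A : Set (J 1), IsClosed A ∧ IsSubmanifold r 1 A ∧
    ∀ q : ℕ, (q = r - 1 ∨ r ≤ 2 * q) →
      ¬ ∃ M : ℕ → Set (J 2), (∀ i, ∃ c, 1 < c ∧ IsSubmanifold q c (M i)) ∧
        ⋃ i, M i = tilde A := by
  rcases Nat.lt_or_ge r 2 with h | h
  · obtain rfl : r = 1 := by omega
    obtain ⟨k, hks, hkc, hkr⟩ :=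
      isClosed_cantorSet.isOpen_compl.exists_contDiff_support_eq (n := 1)
    have hkc' : ContDiff ℝ 1 k := hkc
    have hk0 : ∀ t, 0 ≤ k t := fun t => (hkr (mem_range_self t)).1
    have hkz : ∀ t, k t = 0 ↔ t ∈ cantorSet := by
      intro t
      have : t ∈ Function.support k ↔ t ∈ cantorSetᶜ := by rw [hks]
      rw [Function.mem_support, mem_compl_iff] at this
      exact not_iff_not.1 this
    refine ⟨hyp (f1 k), isClosed_hyp (contDiff_f1 hkc').continuous,
      isSubmanifold_hyp le_rfl (by exact_mod_cast contDiff_f1 hkc'), fun q _ => ?_⟩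
    refine no_union not_countable_B1 (B1_subset hkc' fun t ht => (hkz t).2 ht)
      (P := fun M => ∃ c, 1 < c ∧ IsSubmanifold q c M) ?_
    rintro M ⟨c, -, hM⟩ hsub
    exact countable_piece_one hkc' hk0 (fun t => (hkz t).1) hM hsub
  · refine ⟨hyp (ff r), isClosed_hyp (contDiff_ff r).continuous,
      isSubmanifold_hyp hr (contDiff_ff r), fun q hq => ?_⟩
    refine no_union not_countable_BB (BB_subset hr)
      (P := fun M => ∃ c, 1 < c ∧ IsSubmanifold q c M) ?_
    rintro M ⟨c, hc, hM⟩ hsub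
    exact countable_piece h (by omega) (by omega) hc hM hsub

end Q178.Jets
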